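import Pool.Agent.Helper80.PO.Form
import Pool.Agent.Helper80.NF.SpecN
import Pool.Agent.Helper29.C2.Named2

/-!
# Two-variable logic with counting over one partial order

Over strict partial orders of height at most `h`: for `h ≤ 2` the spectra are ultimately periodic, for `h ≥ 3`, and for all
partial orders, they are universal.
-/

set_option autoImplicit false

namespace Pool.Agent.Helper80.PO

open Pool.Agent.Helper29.Prefix Pool.Agent.Helper29.C2 Pool.Agent.Helper80.NF Pool.Agent.Helper20.Spectra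
  Pool.Agent.Helper20.PV

/-- A strict partial order. -/
structure POrd (A : Type) (R : Unit → A → A → Prop) : Prop where
  irr : ∀ x, ¬ R () x x
  trans : ∀ x y z, R () x y → R () y z → R () x z

/-- A strict partial order of height at most `h`: there is no chain `v 0 < v 1 < … < v h`. -/
structure POrdH (h : ℕ) (A : Type) (R : Unit → A → A → Prop) : Prop where
  irr : ∀ x, ¬ R () x x
  trans : ∀ x y z, R () x y → R () y z → R () x z
  height : ∀ v : Fin (h + 1) → A, ¬ ∀ i j, i < j → R () (v i) (v j)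

/-- The general form: all classes of transitive relations which contain the partial orders with three levels. -/
theorem univ_of_levels {K : ∀ A : Type, (Unit → A → A → Prop) → Prop}
    (hK1 : ∀ (n : ℕ) (R : Unit → Fin n → Fin n → Prop), K (Fin n) R → ∀ x y z, R () x y → R () y z → R () x z)
    (hK2 : ∀ (n : ℕ) (R : Unit → Fin n → Fin n → Prop) (l : Fin n → ℕ), (∀ x, l x ≤ 2) →
      (∀ x y z, R () x y → R () y z → R () x z) → (∀ x y, R () x y → l x < l y) → K (Fin n) R) :
    Univ (C2Spectrum K) := by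
  refine univ_of_tiles fun q W => ?_
  obtain ⟨Φ, hΦ⟩ := po_sentence W
  refine ⟨Polynomial.C 3 * Polynomial.X ^ 3 + Polynomial.C 2 * Polynomial.X ^ 2, szPO W,
    ⟨PCol q, Fin 3, inferInstance, inferInstance, Φ, hΦ K hK1 hK2⟩, fun N hN => ?_⟩
  rw [po_sizes W hN]
  simp

theorem univ_pOrd : Univ (C2Spectrum POrd) :=
  univ_of_levels (fun _ _ h => h.trans) fun _ _ l _ h2 h3 => ⟨fun x hx => lt_irrefl _ (h3 x x hx), h2⟩

theorem univ_pOrdH {h : ℕ} (hh : 3 ≤ h) : Univ (C2Spectrum (POrdH h)) := by
  refine univ_of_levels (fun _ _ h => h.trans) fun n R l h1 h2 h3 => ⟨fun x hx => lt_irrefl _ (h3 x x hx), h2, ?_⟩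
  intro v hv
  have key : ∀ (i : ℕ) (hi : i < h + 1), i ≤ l (v ⟨i, hi⟩) := by
    intro i
    induction i with
    | zero => intro _; exact Nat.zero_le _
    | succ i ih =>
      intro hi
      have := h3 _ _ (hv ⟨i, by omega⟩ ⟨i + 1, hi⟩ (by simp))
      have := ih (by omega)
      omega
  have := key 3 (by omega)
  have := h1 (v ⟨3, by omega⟩)
  omega

lemma univN_pOrd : UnivN 3 POrd := by
  refine ⟨fun o _ => ¬ o () 0 0 ∧ (o () 0 1 → o () 1 2 → o () 0 2), fun A R => ?_⟩
  constructor
  · intro h v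
    exact ⟨h.irr _, h.trans _ _ _⟩
  · intro h
    exact ⟨fun x => (h (fun _ => x)).1, fun x y z => (h ![x, y, z]).2⟩

lemma univN_pOrdH (h : ℕ) : UnivN (h + 3) (POrdH h) := by
  refine ⟨fun o _ => ¬ o () 0 0 ∧ (o () 0 1 → o () 1 2 → o () 0 2) ∧
    ¬ ∀ i j : Fin (h + 1), i < j → o () (Fin.castLE (by omega) i) (Fin.castLE (by omega) j), fun A R => ?_⟩
  constructor
  · intro H v
    exact ⟨H.irr _, H.trans _ _ _, H.height fun i => v (Fin.castLE (by omega) i)⟩
  · intro H
    refine ⟨fun x => (H (fun _ => x)).1, fun x y z => ?_, fun v hv => ?_⟩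
    · have h1 := (H (fun i => if i.1 = 0 then x else if i.1 = 1 then y else z)).2.1
      have h2 : 2 % (h + 3) = 2 := Nat.mod_eq_of_lt (by omega)
      simpa [h2] using h1
    · refine (H (fun i => if hi : i.1 < h + 1 then v ⟨i.1, hi⟩ else v 0)).2.2 fun i j hij => ?_
      show R () (if hi : i.1 < h + 1 then v ⟨i.1, hi⟩ else v 0) (if hi : j.1 < h + 1 then v ⟨j.1, hi⟩ else v 0)
      rw [dif_pos i.2, dif_pos j.2]
      exact hv i j hij

/-! ### Height at most two -/

/-- the background relation as a free relation -/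
def free {U V Λ : Type} : Fm Unit U V → Fm Λ U (Option V)
  | Fm.eq => Fm.eq
  | Fm.ord _ v => Fm.bin none v (!v)
  | Fm.un P v => Fm.un P v
  | Fm.bin E v w => Fm.bin (some E) v w
  | Fm.neg φ => Fm.neg (free φ)
  | Fm.and φ ψ => Fm.and (free φ) (free ψ)
  | Fm.ex k v φ => Fm.ex k v (free φ)

/-- the structure -/
def unfree {U V Λ A : Type} (M : Str Λ U (Option V) A) : Str Unit U V A where
  ord := fun _ x y => M.bin none x y
  un := M.un
  bin := fun E x y => M.bin (some E) x y

lemma sat_free {U V Λ A : Type} (M : Str Λ U (Option V) A) (φ : Fm Unit U V) : ∀ e : Bool → A,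
    Sat M (free φ) e ↔ Sat (unfree M) φ e := by
  induction φ with
  | eq => intro e; exact Iff.rfl
  | ord l v => intro e; exact Iff.rfl
  | un P v => intro e; exact Iff.rfl
  | bin E v w => intro e; exact Iff.rfl
  | neg φ ih => intro e; exact not_congr (ih e)
  | and φ ψ ih1 ih2 => intro e; exact and_congr (ih1 e) (ih2 e)
  | ex k v φ ih =>
    intro e
    show k ≤ Nat.card _ ↔ k ≤ Nat.card _
    simp only [ih]

/-- a class with a two-variable definition is not more than the empty background -/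
lemma free_spec {K : ∀ A : Type, (Unit → A → A → Prop) → Prop} (κ : ∀ U V : Type, Fm (Fin 0 ⊕ Fin 0) U (Option V))
    (hκ : ∀ (U V : Type) (n : ℕ) (M : Str (Fin 0 ⊕ Fin 0) U (Option V) (Fin n)), 1 ≤ n →
      (K (Fin n) (fun _ x y => M.bin none x y) ↔ ∀ e, Sat M (κ U V) e)) {S : Set ℕ}
    (h : C2Spectrum K S) : C2Spectrum (KM 0 0) S := by
  obtain ⟨U, V, hU, hV, Φ, rfl⟩ := h
  refine ⟨U, Option V, hU, inferInstance, Fm.and (κ U V) (free Φ), Set.ext fun n => and_congr_right fun hn => ?_⟩
  constructor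
  · rintro ⟨M, h1, h2⟩
    let M' : Str (Fin 0 ⊕ Fin 0) U (Option V) (Fin n) :=
      ⟨fun _ _ _ => False, M.un, fun E x y => match E with
        | none => M.ord () x y
        | some E => M.bin E x y⟩
    refine ⟨M', ⟨fun i => i.elim0, fun i => i.elim0⟩, fun e => ⟨(hκ U V n M' hn).1 h1 e, ?_⟩⟩
    rw [sat_free]
    exact h2 e
  · rintro ⟨M, -, h2⟩
    refine ⟨unfree M, (hκ U V n M hn).2 fun e => (h2 e).1, fun e => ?_⟩
    rw [← sat_free]
    exact (h2 e).2

lemma two_spec {S : Set ℕ} (h : C2Spectrum (POrdH 2) S) : C2Spectrum (KM 0 0) S := by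
  refine free_spec (fun U V => Fm.and (Fm.neg (Fm.bin none true true))
    (Fm.neg (Fm.and (Fm.bin none true false) (Fm.ex 1 true (Fm.bin none false true))))) ?_ h
  intro U V n M hn
  have key : (∀ e, Sat M (Fm.and (Fm.neg (Fm.bin none true true))
      (Fm.neg (Fm.and (Fm.bin none true false) (Fm.ex 1 true (Fm.bin none false true))))) e) ↔
      ∀ e : Bool → Fin n, ¬ M.bin none (e true) (e true) ∧ ¬ (M.bin none (e true) (e false) ∧
        ∃ a, M.bin none (e false) a) := by
    refine forall_congr' fun e => ?_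
    show (¬ M.bin none (e true) (e true) ∧ ¬ (M.bin none (e true) (e false) ∧
      1 ≤ Nat.card {a : Fin n // M.bin none (Function.update e true a false) (Function.update e true a true)})) ↔ _
    have : 1 ≤ Nat.card {a : Fin n // M.bin none (Function.update e true a false) (Function.update e true a true)} ↔
        ∃ a, M.bin none (e false) a := by
      rw [Nat.one_le_iff_ne_zero, ← Nat.pos_iff_ne_zero, Nat.card_pos_iff]
      exact ⟨fun h => ⟨h.1.some.1, h.1.some.2⟩, fun h => ⟨⟨⟨h.choose, h.choose_spec⟩⟩, inferInstance⟩⟩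
    rw [this]
  rw [key]
  constructor
  · intro H e
    refine ⟨H.irr _, ?_⟩
    rintro ⟨h1, a, h2⟩
    refine H.height ![e true, e false, a] fun i j hij => ?_
    fin_cases i <;> fin_cases j <;> simp at hij ⊢
    · exact h1
    · exact H.trans _ _ _ h1 h2
    · exact h2
  · intro H
    have H2 : ∀ x y z, M.bin none x y → ¬ M.bin none y z := fun x y z h1 h2 =>
      (H (fun b => if b then x else y)).2 ⟨by simpa using h1, z, by simpa using h2⟩
    exact ⟨fun x => (H (fun _ => x)).1, fun x y z h1 h2 => absurd h2 (H2 x y z h1), fun v hv =>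
      H2 _ _ _ (hv 0 1 (by decide)) (hv 1 2 (by decide))⟩

lemma one_spec {S : Set ℕ} (h : C2Spectrum (POrdH 1) S) : C2Spectrum (KM 0 0) S := by
  refine free_spec (fun U V => Fm.neg (Fm.bin none true false)) ?_ h
  intro U V n M hn
  constructor
  · intro H e h1
    refine H.height ![e true, e false] fun i j hij => ?_
    fin_cases i <;> fin_cases j <;> simp at hij ⊢
    exact h1
  · intro H
    have H2 : ∀ x y, ¬ M.bin none x y := fun x y h1 => H (fun b => if b then x else y) h1
    exact ⟨fun x => H2 x x, fun x y z h1 h2 => absurd h1 (H2 x y), fun v hv => H2 _ _ (hv 0 1 (by decide))⟩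

/-- **Height at most two: ultimately periodic.** -/
theorem ultPeriodic_pOrdH {h : ℕ} (hh : h ≤ 2) {S : Set ℕ} (hS : C2Spectrum (POrdH h) S) : Pool.Agent.Helper29.C2.UltPeriodic S := by
  have h3 : h = 0 ∨ h = 1 ∨ h = 2 := by omega
  rcases h3 with rfl | rfl | rfl
  · obtain ⟨U, V, hU, hV, Φ, rfl⟩ := hS
    refine ⟨1, 0, le_rfl, fun n _ => ?_⟩
    constructor
    · rintro ⟨hn, M, h1, -⟩
      exact absurd (fun i j hij => absurd hij (by omega)) (h1.height fun _ => ⟨0, hn⟩)
    · rintro ⟨hn, M, h1, -⟩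
      exact absurd (fun i j hij => absurd hij (by omega)) (h1.height fun _ => ⟨0, hn⟩)
  · exact km_ultPeriodic (k := 0) (m := 0) (by omega) (one_spec hS)
  · exact km_ultPeriodic (k := 0) (m := 0) (by omega) (two_spec hS)

/-- **One partial order.** (1) For `h ≤ 2` the two-variable spectra over partial orders of height at most `h` are
ultimately periodic; (2) for `h ≥ 3` they are spectra, and universal; (3) so are those over all partial orders. -/
theorem one_partial_order :
    (∀ h : ℕ, h ≤ 2 → ∀ S, C2Spectrum (POrdH h) S → Pool.Agent.Helper29.C2.UltPeriodic S) ∧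
    (∀ h : ℕ, 3 ≤ h → (∀ S, C2Spectrum (POrdH h) S → IsSpectrum S) ∧ Univ (C2Spectrum (POrdH h))) ∧
    (∀ S, C2Spectrum POrd S → IsSpectrum S) ∧ Univ (C2Spectrum POrd) :=
  ⟨fun _ hh _ hS => ultPeriodic_pOrdH hh hS,
    fun h hh => ⟨fun _ hS => c2Spectrum_isSpectrum (univN_pOrdH h) hS, univ_pOrdH hh⟩,
    fun _ hS => c2Spectrum_isSpectrum univN_pOrd hS, univ_pOrd⟩

end Pool.Agent.Helper80.PO
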