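import Pool.Agent.Helper80.PO.Sound2

/-!
# Partial orders of height three: from a tiling to a model
-/

set_option autoImplicit false

namespace Pool.Agent.Helper80.PO

open Pool.Agent.Helper29.Prefix Pool.Agent.Helper80.TE

/-- the elements -/
abbrev Ep (N : ℕ) : Type :=
  Σ p : Fin N × Fin N, Unit ⊕ ((Fin p.1 ⊕ Fin p.2) ⊕ (Bool ⊕ (Bool × Option (Fin p.1 ⊕ Fin p.2))))

namespace Ep

variable {N : ℕ}

/-- column -/
def X (z : Ep N) : ℕ := z.1.1

/-- row -/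
def Y (z : Ep N) : ℕ := z.1.2

/-- sort -/
def s (z : Ep N) : Fin 4 :=
  match z.2 with
  | Sum.inl _ => 0
  | Sum.inr (Sum.inl _) => 1
  | Sum.inr (Sum.inr (Sum.inl _)) => 2
  | Sum.inr (Sum.inr (Sum.inr _)) => 3

/-- direction -/
def t (z : Ep N) : Bool :=
  match z.2 with
  | Sum.inl _ => true
  | Sum.inr (Sum.inl _) => true
  | Sum.inr (Sum.inr (Sum.inl t)) => t
  | Sum.inr (Sum.inr (Sum.inr (t, _))) => t

/-- kind -/
def k (z : Ep N) : Fin 3 :=
  match z.2 with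
  | Sum.inl _ => 0
  | Sum.inr (Sum.inl (Sum.inl _)) => 1
  | Sum.inr (Sum.inl (Sum.inr _)) => 2
  | Sum.inr (Sum.inr (Sum.inl _)) => 0
  | Sum.inr (Sum.inr (Sum.inr (_, none))) => 0
  | Sum.inr (Sum.inr (Sum.inr (_, some (Sum.inl _)))) => 1
  | Sum.inr (Sum.inr (Sum.inr (_, some (Sum.inr _)))) => 2

/-- number -/
def i (z : Ep N) : ℕ :=
  match z.2 with
  | Sum.inl _ => 0
  | Sum.inr (Sum.inl (Sum.inl i)) => i
  | Sum.inr (Sum.inl (Sum.inr i)) => i
  | Sum.inr (Sum.inr (Sum.inl _)) => 0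
  | Sum.inr (Sum.inr (Sum.inr (_, none))) => 0
  | Sum.inr (Sum.inr (Sum.inr (_, some (Sum.inl i)))) => i
  | Sum.inr (Sum.inr (Sum.inr (_, some (Sum.inr i)))) => i

lemma card_Ep : Fintype.card (Ep N) = ∑ p : Fin N × Fin N, (5 + 3 * (p.1.1 + p.2.1)) := by
  rw [Fintype.card_sigma]
  refine Finset.sum_congr rfl fun p _ => ?_
  simp only [Fintype.card_sum, Fintype.card_unit, Fintype.card_fin, Fintype.card_bool, Fintype.card_prod,
    Fintype.card_option]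
  ring

/-- the conditions on the data -/
def Ok (x y : ℕ) (s : Fin 4) (t : Bool) (k : Fin 3) (i : ℕ) : Prop :=
  (s = 0 → t = true ∧ k = 0) ∧ (s = 1 → t = true ∧ k ≠ 0) ∧ (s = 2 → k = 0) ∧
  (k = 0 → i = 0) ∧ (k = 1 → i < x) ∧ (k = 2 → i < y)

lemma val (z : Ep N) : z.X < N ∧ z.Y < N ∧ Ok z.X z.Y z.s z.t z.k z.i := by
  obtain ⟨⟨x, y⟩, o⟩ := z
  refine ⟨x.2, y.2, ?_⟩
  rcases o with _ | ((i | i) | (t | ⟨t, _ | i | i⟩))
  · exact ⟨fun _ => ⟨rfl, rfl⟩, fun h => absurd h (by simp [s]), fun h => absurd h (by simp [s]), fun _ => rfl,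
      fun h => absurd h (by simp [k]), fun h => absurd h (by simp [k])⟩
  · exact ⟨fun h => absurd h (by simp [s]), fun _ => ⟨rfl, by simp [k]⟩, fun h => absurd h (by simp [s]),
      fun h => absurd h (by simp [k]), fun _ => i.2, fun h => absurd h (by simp [k])⟩
  · exact ⟨fun h => absurd h (by simp [s]), fun _ => ⟨rfl, by simp [k]⟩, fun h => absurd h (by simp [s]),
      fun h => absurd h (by simp [k]), fun h => absurd h (by simp [k]), fun _ => i.2⟩
  · exact ⟨fun h => absurd h (by simp [s]), fun h => absurd h (by simp [s]), fun _ => rfl, fun _ => rfl,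
      fun h => absurd h (by simp [k]), fun h => absurd h (by simp [k])⟩
  · exact ⟨fun h => absurd h (by simp [s]), fun h => absurd h (by simp [s]), fun h => absurd h (by simp [s]),
      fun _ => rfl, fun h => absurd h (by simp [k]), fun h => absurd h (by simp [k])⟩
  · exact ⟨fun h => absurd h (by simp [s]), fun h => absurd h (by simp [s]), fun h => absurd h (by simp [s]),
      fun h => absurd h (by simp [k]), fun _ => i.2, fun h => absurd h (by simp [k])⟩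
  · exact ⟨fun h => absurd h (by simp [s]), fun h => absurd h (by simp [s]), fun h => absurd h (by simp [s]),
      fun h => absurd h (by simp [k]), fun h => absurd h (by simp [k]), fun _ => i.2⟩

lemma mk (x y : ℕ) (s' : Fin 4) (t' : Bool) (k' : Fin 3) (i' : ℕ) (hx : x < N) (hy : y < N)
    (h : Ok x y s' t' k' i') :
    ∃ z : Ep N, z.X = x ∧ z.Y = y ∧ z.s = s' ∧ z.t = t' ∧ z.k = k' ∧ z.i = i' := by
  obtain ⟨h0, h1, h2, h3, h4, h5⟩ := h
  have hs : s' = 0 ∨ s' = 1 ∨ s' = 2 ∨ s' = 3 := by clear h0 h1 h2; revert s'; decide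
  have hk : k' = 0 ∨ k' = 1 ∨ k' = 2 := by clear h0 h1 h2 h3 h4 h5; revert k'; decide
  rcases hs with hs | hs | hs | hs
  · exact ⟨⟨(⟨x, hx⟩, ⟨y, hy⟩), Sum.inl ()⟩, rfl, rfl, hs.symm, (h0 hs).1.symm, (h0 hs).2.symm, (h3 (h0 hs).2).symm⟩
  · rcases hk with hk | hk | hk
    · exact absurd hk (h1 hs).2
    · exact ⟨⟨(⟨x, hx⟩, ⟨y, hy⟩), Sum.inr (Sum.inl (Sum.inl ⟨i', h4 hk⟩))⟩, rfl, rfl, hs.symm, (h1 hs).1.symm,
        hk.symm, rfl⟩
    · exact ⟨⟨(⟨x, hx⟩, ⟨y, hy⟩), Sum.inr (Sum.inl (Sum.inr ⟨i', h5 hk⟩))⟩, rfl, rfl, hs.symm, (h1 hs).1.symm,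
        hk.symm, rfl⟩
  · exact ⟨⟨(⟨x, hx⟩, ⟨y, hy⟩), Sum.inr (Sum.inr (Sum.inl t'))⟩, rfl, rfl, hs.symm, rfl, (h2 hs).symm,
      (h3 (h2 hs)).symm⟩
  · rcases hk with hk | hk | hk
    · exact ⟨⟨(⟨x, hx⟩, ⟨y, hy⟩), Sum.inr (Sum.inr (Sum.inr (t', none)))⟩, rfl, rfl, hs.symm, rfl, hk.symm,
        (h3 hk).symm⟩
    · exact ⟨⟨(⟨x, hx⟩, ⟨y, hy⟩), Sum.inr (Sum.inr (Sum.inr (t', some (Sum.inl ⟨i', h4 hk⟩))))⟩, rfl, rfl, hs.symm,
        rfl, hk.symm, rfl⟩
    · exact ⟨⟨(⟨x, hx⟩, ⟨y, hy⟩), Sum.inr (Sum.inr (Sum.inr (t', some (Sum.inr ⟨i', h5 hk⟩))))⟩, rfl, rfl, hs.symm,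
        rfl, hk.symm, rfl⟩

lemma ext' {z z' : Ep N} (h1 : z.X = z'.X) (h2 : z.Y = z'.Y) (h3 : z.s = z'.s) (h4 : z.t = z'.t)
    (h5 : z.k = z'.k) (h6 : z.i = z'.i) : z = z' := by
  obtain ⟨⟨x, y⟩, o⟩ := z
  obtain ⟨⟨x', y'⟩, o'⟩ := z'
  obtain rfl : x = x' := Fin.ext h1
  obtain rfl : y = y' := Fin.ext h2
  have : o = o' := by
    rcases o with _ | ((i | i) | (t | ⟨t, _ | i | i⟩)) <;>
    rcases o' with _ | ((i' | i') | (t' | ⟨t', _ | i' | i'⟩)) <;>
    first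
    | rfl
    | (exfalso; simp [s] at h3; done)
    | (exfalso; simp [k] at h5; done)
    | (rw [show t = t' from h4, Fin.ext (show (i : ℕ) = i' from h6)]; done)
    | (rw [Fin.ext (show (i : ℕ) = i' from h6)]; done)
    | (rw [show t = t' from h4]; done)
  rw [this]

end Ep

/-- `z` is at the point of `z'` or at the next point -/
def Nbx {N : ℕ} (z z' : Ep N) : Prop :=
  (z.X = z'.X ∧ z.Y = z'.Y) ∨ (z'.t = true ∧ z.X = z'.X + 1 ∧ z.Y = z'.Y) ∨
    (z'.t = false ∧ z.X = z'.X ∧ z.Y = z'.Y + 1)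

/-- the order -/
def mP (N : ℕ) (z z' : Ep N) : Prop :=
  (z.s = 0 ∧ z'.s = 1 ∧ z.X = z'.X ∧ z.Y = z'.Y) ∨
  (z.s = 0 ∧ (z'.s = 2 ∨ z'.s = 3) ∧ Nbx z z') ∨
  (z.s = 1 ∧ z'.s = 3 ∧ Nbx z z') ∨
  (z.s = 2 ∧ z'.s = 3 ∧ z.X = z'.X ∧ z.Y = z'.Y ∧ z.t = z'.t)

/-- source links -/
def mN (N : ℕ) (z z' : Ep N) : Prop :=
  z.s = 1 ∧ z'.s = 3 ∧ z.X = z'.X ∧ z.Y = z'.Y ∧ z.k = z'.k ∧ z.i = z'.i

/-- target links -/
def mN' (N : ℕ) (z z' : Ep N) : Prop :=
  z.s = 1 ∧ z'.s = 3 ∧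
  ((z'.t = true ∧ z.X = z'.X + 1 ∧ z.Y = z'.Y ∧ ((z'.k = 0 ∧ z.k = 1 ∧ z.i = 0) ∨
    (z'.k = 1 ∧ z.k = 1 ∧ z.i = z'.i + 1) ∨ (z'.k = 2 ∧ z.k = 2 ∧ z.i = z'.i))) ∨
   (z'.t = false ∧ z.X = z'.X ∧ z.Y = z'.Y + 1 ∧ ((z'.k = 0 ∧ z.k = 2 ∧ z.i = 0) ∨
    (z'.k = 2 ∧ z.k = 2 ∧ z.i = z'.i + 1) ∨ (z'.k = 1 ∧ z.k = 1 ∧ z.i = z'.i))))

/-- corner links -/
def mQ (N : ℕ) (z z' : Ep N) : Prop :=
  z.s = 1 ∧ z'.s = 3 ∧ z.X = N - 1 ∧ z.Y = N - 1 ∧ z'.X = N - 1 ∧ z'.Y = N - 1 ∧ z.k = 2 ∧ z'.t = true ∧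
    z'.k = 1 ∧ z.i = z'.i

/-- the colours -/
def mcP {q : ℕ} (N : ℕ) (f : ℕ → ℕ → Fin q) (z : Ep N) : PCol q :=
  ⟨z.s, z.t, z.k, decide (z.X % 2 = 1), decide (z.Y % 2 = 1), f z.X z.Y, decide (z.X = 0), decide (z.X = N - 1),
    decide (z.Y = 0), decide (z.Y = N - 1)⟩

variable {N q : ℕ}

lemma own_iff (f : ℕ → ℕ → Fin q) (z z' : Ep N) :
    Own (mcP N f z) (mcP N f z') ↔ z.X % 2 = z'.X % 2 ∧ z.Y % 2 = z'.Y % 2 := by
  unfold Own mcP
  simp only [decide_eq_decide]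
  omega

lemma nx_iff (f : ℕ → ℕ → Fin q) (z z' : Ep N) :
    Nx (mcP N f z) (mcP N f z') ↔ (z'.t = true ∧ z.X % 2 ≠ z'.X % 2 ∧ z.Y % 2 = z'.Y % 2) ∨
      (z'.t = false ∧ z.X % 2 = z'.X % 2 ∧ z.Y % 2 ≠ z'.Y % 2) := by
  unfold Nx mcP
  have h1 : ∀ a b : Prop, ∀ [Decidable a] [Decidable b], (decide a = !decide b) ↔ (a ↔ ¬ b) := by
    intro a b _ _
    by_cases ha : a <;> by_cases hb : b <;> simp [ha, hb]
  simp only [decide_eq_decide, h1]
  constructor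
  · rintro (⟨h1, h2, h3⟩ | ⟨h1, h2, h3⟩)
    · exact Or.inl ⟨h1, by omega, by omega⟩
    · exact Or.inr ⟨h1, by omega, by omega⟩
  · rintro (⟨h1, h2, h3⟩ | ⟨h1, h2, h3⟩)
    · exact Or.inl ⟨h1, by omega, by omega⟩
    · exact Or.inr ⟨h1, by omega, by omega⟩

lemma nbx_own {z z' : Ep N} (f : ℕ → ℕ → Fin q) (h : Nbx z z') (h' : Own (mcP N f z) (mcP N f z')) :
    z.X = z'.X ∧ z.Y = z'.Y := by
  rw [own_iff] at h'
  rcases h with h | h | h
  · exact h
  · omega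
  · omega

lemma nbx_nx {z z' : Ep N} (f : ℕ → ℕ → Fin q) (h : Nbx z z') (h' : Nx (mcP N f z) (mcP N f z')) :
    (z'.t = true ∧ z.X = z'.X + 1 ∧ z.Y = z'.Y) ∨ (z'.t = false ∧ z.X = z'.X ∧ z.Y = z'.Y + 1) := by
  rw [nx_iff] at h'
  rcases h with h | h | h
  · omega
  · exact Or.inl h
  · exact Or.inr h

lemma own_of_eq {z z' : Ep N} (f : ℕ → ℕ → Fin q) (h : z.X = z'.X) (h' : z.Y = z'.Y) :
    Own (mcP N f z) (mcP N f z') := by
  rw [own_iff, h, h']
  exact ⟨rfl, rfl⟩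

lemma nx_of_eq {z z' : Ep N} (f : ℕ → ℕ → Fin q)
    (h : (z'.t = true ∧ z.X = z'.X + 1 ∧ z.Y = z'.Y) ∨ (z'.t = false ∧ z.X = z'.X ∧ z.Y = z'.Y + 1)) :
    Nx (mcP N f z) (mcP N f z') := by
  rw [nx_iff]
  rcases h with ⟨h1, h2, h3⟩ | ⟨h1, h2, h3⟩
  · exact Or.inl ⟨h1, by omega, by omega⟩
  · exact Or.inr ⟨h1, by omega, by omega⟩

lemma inf_of_eq {z z' : Ep N} (f : ℕ → ℕ → Fin q) (h : z.X = z'.X) (h' : z.Y = z'.Y) :
    Inf (mcP N f z) (mcP N f z') := by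
  unfold Inf mcP
  simp only [h, h', and_self]

lemma mP_lower {z z' : Ep N} (h : mP N z z') (h0 : z.s = 0) (h1 : z'.s = 2 ∨ z'.s = 3) : Nbx z z' := by
  rcases h with h | h | h | h
  · exact Or.inl h.2.2
  · exact h.2.2
  · exact h.2.2
  · rw [h0] at h
    exact absurd h.1 (by decide)

lemma mP_point {z z' : Ep N} (h : mP N z z') (h0 : z.s = 0) : Nbx z z' := by
  rcases h with h | h | h | h
  · exact Or.inl h.2.2
  · exact h.2.2
  · exact h.2.2
  · rw [h0] at h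
    exact absurd h.1 (by decide)

lemma mP_intro {z z' : Ep N} (h0 : z.s = 0) (h1 : z'.s ≠ 0) (h : z.X = z'.X ∧ z.Y = z'.Y) : mP N z z' := by
  have hs : z'.s = 0 ∨ z'.s = 1 ∨ z'.s = 2 ∨ z'.s = 3 := by generalize z'.s = r; revert r; decide
  rcases hs with hs | hs | hs | hs
  · exact absurd hs h1
  · exact Or.inl ⟨h0, hs, h⟩
  · exact Or.inr (Or.inl ⟨h0, Or.inl hs, Or.inl h⟩)
  · exact Or.inr (Or.inl ⟨h0, Or.inr hs, Or.inl h⟩)

lemma ok_pt {x y : ℕ} : Ep.Ok x y 0 true 0 0 :=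
  ⟨fun _ => ⟨rfl, rfl⟩, fun h => absurd h (by decide), fun _ => rfl, fun _ => rfl, fun h => absurd h (by decide),
    fun h => absurd h (by decide)⟩

lemma ok_ed {x y : ℕ} (t : Bool) : Ep.Ok x y 2 t 0 0 :=
  ⟨fun h => absurd h (by decide), fun h => absurd h (by decide), fun _ => rfl, fun _ => rfl,
    fun h => absurd h (by decide), fun h => absurd h (by decide)⟩

lemma ok_ca {x y i : ℕ} (t : Bool) (k : Fin 3) (h0 : k = 0 → i = 0) (h1 : k = 1 → i < x) (h2 : k = 2 → i < y) :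
    Ep.Ok x y 3 t k i :=
  ⟨fun h => absurd h (by decide), fun h => absurd h (by decide), fun h => absurd h (by decide), h0, h1, h2⟩

lemma ok_el {x y i : ℕ} (k : Fin 3) (hk : k ≠ 0) (h1 : k = 1 → i < x) (h2 : k = 2 → i < y) :
    Ep.Ok x y 1 true k i :=
  ⟨fun h => absurd h (by decide), fun _ => ⟨rfl, hk⟩, fun h => absurd h (by decide), fun h => absurd h hk, h1, h2⟩

lemma k_cases (z : Ep N) : z.k = 0 ∨ z.k = 1 ∨ z.k = 2 := by
  generalize z.k = r; revert r; decide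

theorem po_model {W : Wang (Fin q)} (hN : 1 ≤ N) (f : ℕ → ℕ → Fin q)
    (hR : ∀ x y, x + 1 < N → y < N → W.R (f x y) (f (x + 1) y))
    (hU : ∀ x y, x < N → y + 1 < N → W.U (f x y) (f x (y + 1)))
    (hl : ∀ y, y < N → W.l (f 0 y)) (hr : ∀ y, y < N → W.r (f (N - 1) y))
    (hb : ∀ x, x < N → W.b (f x 0)) (ht : ∀ x, x < N → W.t (f x (N - 1))) (hc : W.c (f 0 0)) :
    POAx W (mP N) (mN N) (mN' N) (mQ N) (mcP N f) := by
  constructor
  · -- tr
    intro x y z h h'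
    rcases h with h | h | h | h <;> rcases h' with h' | h' | h' | h'
    · rw [h.2.1] at h'; exact absurd h'.1 (by decide)
    · rw [h.2.1] at h'; exact absurd h'.1 (by decide)
    · refine Or.inr (Or.inl ⟨h.1, Or.inr h'.2.1, ?_⟩)
      unfold Nbx at *
      rw [h.2.2.1, h.2.2.2]
      exact h'.2.2
    · rw [h.2.1] at h'; exact absurd h'.1 (by decide)
    · rcases h.2.1 with h2 | h2 <;> rw [h2] at h' <;> exact absurd h'.1 (by decide)
    · rcases h.2.1 with h2 | h2 <;> rw [h2] at h' <;> exact absurd h'.1 (by decide)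
    · rcases h.2.1 with h2 | h2 <;> rw [h2] at h' <;> exact absurd h'.1 (by decide)
    · refine Or.inr (Or.inl ⟨h.1, Or.inr h'.2.1, ?_⟩)
      have := h.2.2
      unfold Nbx at *
      rw [← h'.2.2.1, ← h'.2.2.2.1, ← h'.2.2.2.2]
      exact this
    · rw [h.2.1] at h'; exact absurd h'.1 (by decide)
    · rw [h.2.1] at h'; exact absurd h'.1 (by decide)
    · rw [h.2.1] at h'; exact absurd h'.1 (by decide)
    · rw [h.2.1] at h'; exact absurd h'.1 (by decide)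
    · rw [h.2.1] at h'; exact absurd h'.1 (by decide)
    · rw [h.2.1] at h'; exact absurd h'.1 (by decide)
    · rw [h.2.1] at h'; exact absurd h'.1 (by decide)
    · rw [h.2.1] at h'; exact absurd h'.1 (by decide)
  · -- one
    intro z
    obtain ⟨v1, v2, v3, v4, v5, v6, v7, v8⟩ := z.val
    refine ⟨fun h => ⟨(v3 h).1, (v3 h).2, fun h' => ?_, fun h' => ?_, fun h' => ?_, fun h' => ?_, fun h' h'' => ?_⟩,
      fun h => ⟨(v4 h).1, (v4 h).2, fun h' hk => ?_, fun h' hk => ?_⟩, v5⟩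
    · have h0 : z.X = 0 := of_decide_eq_true h'
      show W.l (f z.X z.Y)
      rw [h0]; exact hl _ v2
    · have h0 : z.X = N - 1 := of_decide_eq_true h'
      show W.r (f z.X z.Y)
      rw [h0]; exact hr _ v2
    · have h0 : z.Y = 0 := of_decide_eq_true h'
      show W.b (f z.X z.Y)
      rw [h0]; exact hb _ v1
    · have h0 : z.Y = N - 1 := of_decide_eq_true h'
      show W.t (f z.X z.Y)
      rw [h0]; exact ht _ v1
    · have h0 : z.X = 0 := of_decide_eq_true h'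
      have h1 : z.Y = 0 := of_decide_eq_true h''
      show W.c (f z.X z.Y)
      rw [h0, h1]; exact hc
    · have h0 : z.X = 0 := of_decide_eq_true h'
      have := v7 hk
      omega
    · have h0 : z.Y = 0 := of_decide_eq_true h'
      have := v8 hk
      omega
  · -- lt
    intro z z' h
    obtain ⟨v1, v2, -⟩ := z.val
    obtain ⟨w1, w2, -⟩ := z'.val
    refine ⟨?_, fun h0 h1 => ?_, fun h0 h1 => ?_⟩
    · show lev z.s < lev z'.s
      rcases h with h | h | h | h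
      · rw [h.1, h.2.1]; decide
      · rcases h.2.1 with h2 | h2 <;> rw [h.1, h2] <;> decide
      · rw [h.1, h.2.1]; decide
      · rw [h.1, h.2.1]; decide
    · have h0' : z.s = 0 := h0
      have h1' : z'.s = 1 := h1
      rcases h with h | h | h | h
      · exact ⟨own_of_eq f h.2.2.1 h.2.2.2, inf_of_eq f h.2.2.1 h.2.2.2⟩
      · rcases h.2.1 with h2 | h2 <;> rw [h2] at h1' <;> exact absurd h1' (by decide)
      · rw [h0'] at h; exact absurd h.1 (by decide)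
      · rw [h0'] at h; exact absurd h.1 (by decide)
    · have h0' : z.s = 0 := h0
      rcases mP_point h h0' with h2 | h2 | h2
      · exact Or.inl ⟨own_of_eq f h2.1 h2.2, inf_of_eq f h2.1 h2.2⟩
      · refine Or.inr ⟨nx_of_eq f (Or.inl h2), ?_⟩
        have e1 : (mcP N f z').t = true := h2.1
        unfold NbP Bo Bi
        rw [e1]
        refine ⟨decide_eq_false (by omega), decide_eq_false (by omega), fun _ => ⟨?_, ?_, ?_⟩, fun h => absurd h (by decide)⟩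
        · show decide (z'.Y = 0) = decide (z.Y = 0)
          rw [h2.2.2]
        · show decide (z'.Y = N - 1) = decide (z.Y = N - 1)
          rw [h2.2.2]
        · show W.R (f z'.X z'.Y) (f z.X z.Y)
          rw [h2.2.1, h2.2.2]
          exact hR _ _ (by omega) w2
      · refine Or.inr ⟨nx_of_eq f (Or.inr h2), ?_⟩
        have e1 : (mcP N f z').t = false := h2.1
        unfold NbP Bo Bi
        rw [e1]
        refine ⟨decide_eq_false (by omega), decide_eq_false (by omega), fun h => absurd h (by decide), fun _ => ⟨?_, ?_, ?_⟩⟩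
        · show decide (z'.X = 0) = decide (z.X = 0)
          rw [h2.2.1]
        · show decide (z'.X = N - 1) = decide (z.X = N - 1)
          rw [h2.2.1]
        · show W.U (f z'.X z'.Y) (f z.X z.Y)
          rw [h2.2.1, h2.2.2]
          exact hU _ _ w1 (by omega)
  · -- ls
    rintro z z' ⟨h1, h2, h3, h4, h5, h6⟩
    exact ⟨Or.inr (Or.inr (Or.inl ⟨h1, h2, Or.inl ⟨h3, h4⟩⟩)), h1, h2, own_of_eq f h3 h4, h5⟩
  · -- lt'
    rintro z z' ⟨h1, h2, ⟨h3, h4, h5, h6⟩ | ⟨h3, h4, h5, h6⟩⟩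
    · refine ⟨Or.inr (Or.inr (Or.inl ⟨h1, h2, Or.inr (Or.inl ⟨h3, h4, h5⟩)⟩)), h1, h2, nx_of_eq f (Or.inl ⟨h3, h4, h5⟩),
        fun hk => ?_, fun hk => ?_⟩
      · show z.k = inc z'.t
        have hk' : z'.k = 0 := hk
        rw [h3]
        rcases h6 with h6 | h6 | h6
        · exact h6.2.1
        · rw [hk'] at h6; exact absurd h6.1 (by decide)
        · rw [hk'] at h6; exact absurd h6.1 (by decide)
      · show z.k = z'.k
        have hk' : z'.k ≠ 0 := hk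
        rcases h6 with h6 | h6 | h6
        · exact absurd h6.1 hk'
        · rw [h6.1, h6.2.1]
        · rw [h6.1, h6.2.1]
    · refine ⟨Or.inr (Or.inr (Or.inl ⟨h1, h2, Or.inr (Or.inr ⟨h3, h4, h5⟩)⟩)), h1, h2, nx_of_eq f (Or.inr ⟨h3, h4, h5⟩),
        fun hk => ?_, fun hk => ?_⟩
      · show z.k = inc z'.t
        have hk' : z'.k = 0 := hk
        rw [h3]
        rcases h6 with h6 | h6 | h6
        · exact h6.2.1
        · rw [hk'] at h6; exact absurd h6.1 (by decide)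
        · rw [hk'] at h6; exact absurd h6.1 (by decide)
      · show z.k = z'.k
        have hk' : z'.k ≠ 0 := hk
        rcases h6 with h6 | h6 | h6
        · exact absurd h6.1 hk'
        · rw [h6.1, h6.2.1]
        · rw [h6.1, h6.2.1]
  · -- lq
    rintro z z' ⟨h1, h2, h3, h4, h5, h6, h7, h8, h9, h10⟩
    exact ⟨Or.inr (Or.inr (Or.inl ⟨h1, h2, Or.inl ⟨by omega, by omega⟩⟩)), h1, h2,
      own_of_eq f (by omega) (by omega), h7, h8, h9, decide_eq_true h3, decide_eq_true h4⟩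
  · -- w1
    intro y hy
    obtain ⟨v1, v2, -⟩ := y.val
    obtain ⟨x, x1, x2, x3, x4, x5, x6⟩ := Ep.mk (N := N) y.X y.Y 0 true 0 0 v1 v2 ok_pt
    refine ⟨x, ⟨mP_intro x3 hy ⟨x1, x2⟩, x3, own_of_eq f x1 x2⟩, ?_⟩
    rintro x' ⟨a1, a2, a3⟩
    have a2' : x'.s = 0 := a2
    obtain ⟨b1, b2⟩ := nbx_own f (mP_point a1 a2') a3
    obtain ⟨-, -, w3, w4, w5, w6, w7, w8⟩ := x'.val
    have w3' := w3 a2'
    exact Ep.ext' (by omega) (by omega) (by rw [a2', x3]) (by rw [w3'.1, x4]) (by rw [w3'.2, x5]) (by rw [w6 w3'.2, x6])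
  · -- w3
    intro y hy hbo
    obtain ⟨v1, v2, -⟩ := y.val
    have hy0 : y.s ≠ 0 := by
      have hy' : y.s = 2 ∨ y.s = 3 := hy
      rcases hy' with h | h <;> rw [h] <;> decide
    rcases Bool.eq_false_or_eq_true y.t with ht' | ht'
    · have hx : y.X ≠ N - 1 := by
        unfold Bo at hbo
        have e1 : (mcP N f y).t = true := ht'
        rw [e1] at hbo
        exact of_decide_eq_false hbo
      obtain ⟨x, x1, x2, x3, x4, x5, x6⟩ := Ep.mk (N := N) (y.X + 1) y.Y 0 true 0 0 (by omega) v2 ok_pt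
      refine ⟨x, ⟨Or.inr (Or.inl ⟨x3, hy, Or.inr (Or.inl ⟨ht', x1, x2⟩)⟩), x3, nx_of_eq f (Or.inl ⟨ht', x1, x2⟩)⟩, ?_⟩
      rintro x' ⟨a1, a2, a3⟩
      have a2' : x'.s = 0 := a2
      obtain ⟨-, -, w3, w4, w5, w6, w7, w8⟩ := x'.val
      have w3' := w3 a2'
      rcases nbx_nx f (mP_point a1 a2') a3 with b | b
      · exact Ep.ext' (by omega) (by omega) (by rw [a2', x3]) (by rw [w3'.1, x4]) (by rw [w3'.2, x5]) (by rw [w6 w3'.2, x6])
      · rw [ht'] at b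
        exact absurd b.1 (by decide)
    · have hx : y.Y ≠ N - 1 := by
        unfold Bo at hbo
        have e1 : (mcP N f y).t = false := ht'
        rw [e1] at hbo
        exact of_decide_eq_false hbo
      obtain ⟨x, x1, x2, x3, x4, x5, x6⟩ := Ep.mk (N := N) y.X (y.Y + 1) 0 true 0 0 v1 (by omega) ok_pt
      refine ⟨x, ⟨Or.inr (Or.inl ⟨x3, hy, Or.inr (Or.inr ⟨ht', x1, x2⟩)⟩), x3, nx_of_eq f (Or.inr ⟨ht', x1, x2⟩)⟩, ?_⟩
      rintro x' ⟨a1, a2, a3⟩
      have a2' : x'.s = 0 := a2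
      obtain ⟨-, -, w3, w4, w5, w6, w7, w8⟩ := x'.val
      have w3' := w3 a2'
      rcases nbx_nx f (mP_point a1 a2') a3 with b | b
      · rw [ht'] at b
        exact absurd b.1 (by decide)
      · exact Ep.ext' (by omega) (by omega) (by rw [a2', x3]) (by rw [w3'.1, x4]) (by rw [w3'.2, x5]) (by rw [w6 w3'.2, x6])
  · -- w4
    intro x hx t
    have hx' : x.s = 0 := hx
    obtain ⟨v1, v2, -⟩ := x.val
    obtain ⟨y, y1, y2, y3, y4, y5, y6⟩ := Ep.mk (N := N) x.X x.Y 2 t 0 0 v1 v2 (ok_ed t)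
    refine ⟨y, ⟨mP_intro hx' (by rw [y3]; decide) ⟨y1.symm, y2.symm⟩, y3, y4, own_of_eq f y1.symm y2.symm⟩, ?_⟩
    rintro y' ⟨a1, a2, a3, a4⟩
    have a2' : y'.s = 2 := a2
    have a3' : y'.t = t := a3
    obtain ⟨b1, b2⟩ := nbx_own f (mP_point a1 hx') a4
    obtain ⟨-, -, w3, w4, w5, w6, w7, w8⟩ := y'.val
    have w5' := w5 a2'
    exact Ep.ext' (by omega) (by omega) (by rw [a2', y3]) (by rw [a3', y4]) (by rw [w5', y5]) (by rw [w6 w5', y6])
  · -- w5
    intro x hx t hbi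
    have hx' : x.s = 0 := hx
    obtain ⟨v1, v2, -⟩ := x.val
    rcases Bool.eq_false_or_eq_true t with rfl | rfl
    · have hX : x.X ≠ 0 := of_decide_eq_false hbi
      obtain ⟨y, y1, y2, y3, y4, y5, y6⟩ := Ep.mk (N := N) (x.X - 1) x.Y 2 true 0 0 (by omega) v2 (ok_ed true)
      have hnb : (y.t = true ∧ x.X = y.X + 1 ∧ x.Y = y.Y) := ⟨y4, by omega, by omega⟩
      refine ⟨y, ⟨Or.inr (Or.inl ⟨hx', Or.inl y3, Or.inr (Or.inl hnb)⟩), y3, y4, nx_of_eq f (Or.inl hnb)⟩, ?_⟩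
      rintro y' ⟨a1, a2, a3, a4⟩
      have a2' : y'.s = 2 := a2
      have a3' : y'.t = true := a3
      obtain ⟨-, -, w3, w4, w5, w6, w7, w8⟩ := y'.val
      have w5' := w5 a2'
      rcases nbx_nx f (mP_point a1 hx') a4 with b | b
      · exact Ep.ext' (by omega) (by omega) (by rw [a2', y3]) (by rw [a3', y4]) (by rw [w5', y5]) (by rw [w6 w5', y6])
      · rw [a3'] at b
        exact absurd b.1 (by decide)
    · have hX : x.Y ≠ 0 := of_decide_eq_false hbi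
      obtain ⟨y, y1, y2, y3, y4, y5, y6⟩ := Ep.mk (N := N) x.X (x.Y - 1) 2 false 0 0 v1 (by omega) (ok_ed false)
      have hnb : (y.t = false ∧ x.X = y.X ∧ x.Y = y.Y + 1) := ⟨y4, by omega, by omega⟩
      refine ⟨y, ⟨Or.inr (Or.inl ⟨hx', Or.inl y3, Or.inr (Or.inr hnb)⟩), y3, y4, nx_of_eq f (Or.inr hnb)⟩, ?_⟩
      rintro y' ⟨a1, a2, a3, a4⟩
      have a2' : y'.s = 2 := a2
      have a3' : y'.t = false := a3
      obtain ⟨-, -, w3, w4, w5, w6, w7, w8⟩ := y'.val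
      have w5' := w5 a2'
      rcases nbx_nx f (mP_point a1 hx') a4 with b | b
      · rw [a3'] at b
        exact absurd b.1 (by decide)
      · exact Ep.ext' (by omega) (by omega) (by rw [a2', y3]) (by rw [a3', y4]) (by rw [w5', y5]) (by rw [w6 w5', y6])
  · -- w6
    intro y hy
    have hy' : y.s = 3 := hy
    obtain ⟨v1, v2, -⟩ := y.val
    obtain ⟨x, x1, x2, x3, x4, x5, x6⟩ := Ep.mk (N := N) y.X y.Y 2 y.t 0 0 v1 v2 (ok_ed y.t)
    refine ⟨x, ⟨Or.inr (Or.inr (Or.inr ⟨x3, hy', x1, x2, x4⟩)), x3, x4, own_of_eq f x1 x2⟩, ?_⟩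
    rintro x' ⟨a1, a2, a3, a4⟩
    have a2' : x'.s = 2 := a2
    have a3' : x'.t = y.t := a3
    obtain ⟨-, -, w3, w4, w5, w6, w7, w8⟩ := x'.val
    have w5' := w5 a2'
    rcases a1 with a1 | a1 | a1 | a1
    · rw [a2'] at a1; exact absurd a1.1 (by decide)
    · rw [a2'] at a1; exact absurd a1.1 (by decide)
    · rw [a2'] at a1; exact absurd a1.1 (by decide)
    · exact Ep.ext' (by omega) (by omega) (by rw [a2', x3]) (by rw [a3', x4]) (by rw [w5', x5]) (by rw [w6 w5', x6])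
  · -- w7
    intro x hx t
    have hx' : x.s = 0 := hx
    obtain ⟨v1, v2, -⟩ := x.val
    obtain ⟨y, y1, y2, y3, y4, y5, y6⟩ := Ep.mk (N := N) x.X x.Y 3 t 0 0 v1 v2
      (ok_ca t 0 (fun _ => rfl) (fun h => absurd h (by decide)) (fun h => absurd h (by decide)))
    refine ⟨y, ⟨mP_intro hx' (by rw [y3]; decide) ⟨y1.symm, y2.symm⟩, y3, y4, y5, own_of_eq f y1.symm y2.symm⟩, ?_⟩
    rintro y' ⟨a1, a2, a3, a4, a5⟩
    have a2' : y'.s = 3 := a2
    have a3' : y'.t = t := a3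
    have a4' : y'.k = 0 := a4
    obtain ⟨b1, b2⟩ := nbx_own f (mP_point a1 hx') a5
    obtain ⟨-, -, w3, w4, w5, w6, w7, w8⟩ := y'.val
    exact Ep.ext' (by omega) (by omega) (by rw [a2', y3]) (by rw [a3', y4]) (by rw [a4', y5]) (by rw [w6 a4', y6])
  · -- w8
    intro x hx t
    have hx' : x.s = 1 := hx
    obtain ⟨v1, v2, v3, v4, v5, v6, v7, v8⟩ := x.val
    obtain ⟨y, y1, y2, y3, y4, y5, y6⟩ := Ep.mk (N := N) x.X x.Y 3 t x.k x.i v1 v2 (ok_ca t _ v6 v7 v8)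
    refine ⟨y, ⟨⟨hx', y3, y1.symm, y2.symm, y5.symm, y6.symm⟩, y4⟩, ?_⟩
    rintro y' ⟨⟨a1, a2, a3, a4, a5, a6⟩, a7⟩
    have a7' : y'.t = t := a7
    exact Ep.ext' (by omega) (by omega) (by rw [a2, y3]) (by rw [a7', y4]) (by rw [← a5, y5]) (by omega)
  · -- w9
    intro y hy hk
    have hy' : y.s = 3 := hy
    have hk' : y.k ≠ 0 := hk
    obtain ⟨v1, v2, v3, v4, v5, v6, v7, v8⟩ := y.val
    obtain ⟨x, x1, x2, x3, x4, x5, x6⟩ := Ep.mk (N := N) y.X y.Y 1 true y.k y.i v1 v2 (ok_el _ hk' v7 v8)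
    refine ⟨x, ⟨x3, hy', x1, x2, x5, x6⟩, ?_⟩
    rintro x' ⟨a1, a2, a3, a4, a5, a6⟩
    obtain ⟨-, -, w3, w4, w5, w6, w7, w8⟩ := x'.val
    exact Ep.ext' (by omega) (by omega) (by rw [a1, x3]) (by rw [(w4 a1).1, x4]) (by rw [a5, x5]) (by omega)
  · -- w10
    intro x hx t hbi
    have hx' : x.s = 1 := hx
    obtain ⟨v1, v2, v3, v4, v5, v6, v7, v8⟩ := x.val
    rcases Bool.eq_false_or_eq_true t with rfl | rfl
    · have hX : x.X ≠ 0 := of_decide_eq_false hbi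
      rcases k_cases x with hk | hk | hk
      · exact absurd hk (v4 hx').2
      · have v7' := v7 hk
        by_cases hi : x.i = 0
        · obtain ⟨y, y1, y2, y3, y4, y5, y6⟩ := Ep.mk (N := N) (x.X - 1) x.Y 3 true 0 0 (by omega) v2
            (ok_ca true 0 (fun _ => rfl) (fun h => absurd h (by decide)) (fun h => absurd h (by decide)))
          refine ⟨y, ⟨⟨hx', y3, Or.inl ⟨y4, by omega, by omega, Or.inl ⟨y5, hk, hi⟩⟩⟩, y4⟩, ?_⟩
          rintro y' ⟨⟨a1, a2, ⟨b1, b2, b3, b4⟩ | ⟨b1, -⟩⟩, a3⟩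
          · rcases b4 with b4 | b4 | b4
            · exact Ep.ext' (by omega) (by omega) (by rw [a2, y3]) (by rw [b1, y4]) (by rw [b4.1, y5])
                (by rw [y'.val.2.2.2.2.2.1 b4.1, y6])
            · omega
            · rw [hk] at b4; exact absurd b4.2.1 (by decide)
          · have a3' : y'.t = true := a3
            rw [a3'] at b1; exact absurd b1 (by decide)
        · obtain ⟨y, y1, y2, y3, y4, y5, y6⟩ := Ep.mk (N := N) (x.X - 1) x.Y 3 true 1 (x.i - 1) (by omega) v2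
            (ok_ca true 1 (fun h => absurd h (by decide)) (fun _ => by omega) (fun h => absurd h (by decide)))
          refine ⟨y, ⟨⟨hx', y3, Or.inl ⟨y4, by omega, by omega, Or.inr (Or.inl ⟨y5, hk, by omega⟩)⟩⟩, y4⟩, ?_⟩
          rintro y' ⟨⟨a1, a2, ⟨b1, b2, b3, b4⟩ | ⟨b1, -⟩⟩, a3⟩
          · rcases b4 with b4 | b4 | b4
            · omega
            · exact Ep.ext' (by omega) (by omega) (by rw [a2, y3]) (by rw [b1, y4]) (by rw [b4.1, y5]) (by omega)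
            · rw [hk] at b4; exact absurd b4.2.1 (by decide)
          · have a3' : y'.t = true := a3
            rw [a3'] at b1; exact absurd b1 (by decide)
      · obtain ⟨y, y1, y2, y3, y4, y5, y6⟩ := Ep.mk (N := N) (x.X - 1) x.Y 3 true 2 x.i (by omega) v2
          (ok_ca true 2 (fun h => absurd h (by decide)) (fun h => absurd h (by decide)) (fun _ => v8 hk))
        refine ⟨y, ⟨⟨hx', y3, Or.inl ⟨y4, by omega, by omega, Or.inr (Or.inr ⟨y5, hk, by omega⟩)⟩⟩, y4⟩, ?_⟩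
        rintro y' ⟨⟨a1, a2, ⟨b1, b2, b3, b4⟩ | ⟨b1, -⟩⟩, a3⟩
        · rcases b4 with b4 | b4 | b4
          · rw [hk] at b4; exact absurd b4.2.1 (by decide)
          · rw [hk] at b4; exact absurd b4.2.1 (by decide)
          · exact Ep.ext' (by omega) (by omega) (by rw [a2, y3]) (by rw [b1, y4]) (by rw [b4.1, y5]) (by omega)
        · have a3' : y'.t = true := a3
          rw [a3'] at b1; exact absurd b1 (by decide)
    · have hX : x.Y ≠ 0 := of_decide_eq_false hbi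
      rcases k_cases x with hk | hk | hk
      · exact absurd hk (v4 hx').2
      · obtain ⟨y, y1, y2, y3, y4, y5, y6⟩ := Ep.mk (N := N) x.X (x.Y - 1) 3 false 1 x.i v1 (by omega)
          (ok_ca false 1 (fun h => absurd h (by decide)) (fun _ => v7 hk) (fun h => absurd h (by decide)))
        refine ⟨y, ⟨⟨hx', y3, Or.inr ⟨y4, by omega, by omega, Or.inr (Or.inr ⟨y5, hk, by omega⟩)⟩⟩, y4⟩, ?_⟩
        rintro y' ⟨⟨a1, a2, ⟨b1, -⟩ | ⟨b1, b2, b3, b4⟩⟩, a3⟩
        · have a3' : y'.t = false := a3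
          rw [a3'] at b1; exact absurd b1 (by decide)
        · rcases b4 with b4 | b4 | b4
          · rw [hk] at b4; exact absurd b4.2.1 (by decide)
          · rw [hk] at b4; exact absurd b4.2.1 (by decide)
          · exact Ep.ext' (by omega) (by omega) (by rw [a2, y3]) (by rw [b1, y4]) (by rw [b4.1, y5]) (by omega)
      · have v8' := v8 hk
        by_cases hi : x.i = 0
        · obtain ⟨y, y1, y2, y3, y4, y5, y6⟩ := Ep.mk (N := N) x.X (x.Y - 1) 3 false 0 0 v1 (by omega)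
            (ok_ca false 0 (fun _ => rfl) (fun h => absurd h (by decide)) (fun h => absurd h (by decide)))
          refine ⟨y, ⟨⟨hx', y3, Or.inr ⟨y4, by omega, by omega, Or.inl ⟨y5, hk, hi⟩⟩⟩, y4⟩, ?_⟩
          rintro y' ⟨⟨a1, a2, ⟨b1, -⟩ | ⟨b1, b2, b3, b4⟩⟩, a3⟩
          · have a3' : y'.t = false := a3
            rw [a3'] at b1; exact absurd b1 (by decide)
          · rcases b4 with b4 | b4 | b4
            · exact Ep.ext' (by omega) (by omega) (by rw [a2, y3]) (by rw [b1, y4]) (by rw [b4.1, y5])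
                (by rw [y'.val.2.2.2.2.2.1 b4.1, y6])
            · omega
            · rw [hk] at b4; exact absurd b4.2.1 (by decide)
        · obtain ⟨y, y1, y2, y3, y4, y5, y6⟩ := Ep.mk (N := N) x.X (x.Y - 1) 3 false 2 (x.i - 1) v1 (by omega)
            (ok_ca false 2 (fun h => absurd h (by decide)) (fun h => absurd h (by decide)) (fun _ => by omega))
          refine ⟨y, ⟨⟨hx', y3, Or.inr ⟨y4, by omega, by omega, Or.inr (Or.inl ⟨y5, hk, by omega⟩)⟩⟩, y4⟩, ?_⟩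
          rintro y' ⟨⟨a1, a2, ⟨b1, -⟩ | ⟨b1, b2, b3, b4⟩⟩, a3⟩
          · have a3' : y'.t = false := a3
            rw [a3'] at b1; exact absurd b1 (by decide)
          · rcases b4 with b4 | b4 | b4
            · omega
            · exact Ep.ext' (by omega) (by omega) (by rw [a2, y3]) (by rw [b1, y4]) (by rw [b4.1, y5]) (by omega)
            · rw [hk] at b4; exact absurd b4.2.1 (by decide)
  · -- w11
    intro y hy hbo
    have hy' : y.s = 3 := hy
    obtain ⟨v1, v2, v3, v4, v5, v6, v7, v8⟩ := y.val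
    rcases Bool.eq_false_or_eq_true y.t with ht' | ht'
    · have hX : y.X ≠ N - 1 := by
        unfold Bo at hbo
        have e1 : (mcP N f y).t = true := ht'
        rw [e1] at hbo
        exact of_decide_eq_false hbo
      obtain ⟨k1, i1, hk1, hi1, hi2, hkk⟩ : ∃ (k1 : Fin 3) (i1 : ℕ), k1 ≠ 0 ∧ (k1 = 1 → i1 < y.X + 1) ∧
          (k1 = 2 → i1 < y.Y) ∧ ((y.k = 0 ∧ k1 = 1 ∧ i1 = 0) ∨ (y.k = 1 ∧ k1 = 1 ∧ i1 = y.i + 1) ∨
            (y.k = 2 ∧ k1 = 2 ∧ i1 = y.i)) := by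
        rcases k_cases y with hk | hk | hk
        · exact ⟨1, 0, by decide, fun _ => by omega, fun h => absurd h (by decide), Or.inl ⟨hk, rfl, rfl⟩⟩
        · exact ⟨1, y.i + 1, by decide, fun _ => by have := v7 hk; omega, fun h => absurd h (by decide),
            Or.inr (Or.inl ⟨hk, rfl, rfl⟩)⟩
        · exact ⟨2, y.i, by decide, fun h => absurd h (by decide), fun _ => v8 hk, Or.inr (Or.inr ⟨hk, rfl, rfl⟩)⟩
      obtain ⟨x, x1, x2, x3, x4, x5, x6⟩ := Ep.mk (N := N) (y.X + 1) y.Y 1 true k1 i1 (by omega) v2 (ok_el _ hk1 hi1 hi2)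
      refine ⟨x, ⟨x3, hy', Or.inl ⟨ht', x1, x2, by rw [x5, x6]; exact hkk⟩⟩, ?_⟩
      rintro x' ⟨a1, a2, ⟨b1, b2, b3, b4⟩ | ⟨b1, -⟩⟩
      · obtain ⟨-, -, w3, w4, w5, w6, w7, w8⟩ := x'.val
        have hkx : x'.k = k1 ∧ x'.i = i1 := by
          rcases b4 with b4 | b4 | b4 <;> rcases hkk with c4 | c4 | c4
          · exact ⟨by rw [b4.2.1, c4.2.1], by omega⟩
          · rw [b4.1] at c4; exact absurd c4.1 (by decide)
          · rw [b4.1] at c4; exact absurd c4.1 (by decide)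
          · rw [b4.1] at c4; exact absurd c4.1 (by decide)
          · exact ⟨by rw [b4.2.1, c4.2.1], by omega⟩
          · rw [b4.1] at c4; exact absurd c4.1 (by decide)
          · rw [b4.1] at c4; exact absurd c4.1 (by decide)
          · rw [b4.1] at c4; exact absurd c4.1 (by decide)
          · exact ⟨by rw [b4.2.1, c4.2.1], by omega⟩
        exact Ep.ext' (by omega) (by omega) (by rw [a1, x3]) (by rw [(w4 a1).1, x4]) (by rw [hkx.1, x5]) (by omega)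
      · rw [ht'] at b1; exact absurd b1 (by decide)
    · have hX : y.Y ≠ N - 1 := by
        unfold Bo at hbo
        have e1 : (mcP N f y).t = false := ht'
        rw [e1] at hbo
        exact of_decide_eq_false hbo
      obtain ⟨k1, i1, hk1, hi1, hi2, hkk⟩ : ∃ (k1 : Fin 3) (i1 : ℕ), k1 ≠ 0 ∧ (k1 = 1 → i1 < y.X) ∧
          (k1 = 2 → i1 < y.Y + 1) ∧ ((y.k = 0 ∧ k1 = 2 ∧ i1 = 0) ∨ (y.k = 2 ∧ k1 = 2 ∧ i1 = y.i + 1) ∨
            (y.k = 1 ∧ k1 = 1 ∧ i1 = y.i)) := by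
        rcases k_cases y with hk | hk | hk
        · exact ⟨2, 0, by decide, fun h => absurd h (by decide), fun _ => by omega, Or.inl ⟨hk, rfl, rfl⟩⟩
        · exact ⟨1, y.i, by decide, fun _ => v7 hk, fun h => absurd h (by decide), Or.inr (Or.inr ⟨hk, rfl, rfl⟩)⟩
        · exact ⟨2, y.i + 1, by decide, fun h => absurd h (by decide), fun _ => by have := v8 hk; omega,
            Or.inr (Or.inl ⟨hk, rfl, rfl⟩)⟩
      obtain ⟨x, x1, x2, x3, x4, x5, x6⟩ := Ep.mk (N := N) y.X (y.Y + 1) 1 true k1 i1 v1 (by omega) (ok_el _ hk1 hi1 hi2)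
      refine ⟨x, ⟨x3, hy', Or.inr ⟨ht', x1, x2, by rw [x5, x6]; exact hkk⟩⟩, ?_⟩
      rintro x' ⟨a1, a2, ⟨b1, -⟩ | ⟨b1, b2, b3, b4⟩⟩
      · rw [ht'] at b1; exact absurd b1 (by decide)
      · obtain ⟨-, -, w3, w4, w5, w6, w7, w8⟩ := x'.val
        have hkx : x'.k = k1 ∧ x'.i = i1 := by
          rcases b4 with b4 | b4 | b4 <;> rcases hkk with c4 | c4 | c4
          · exact ⟨by rw [b4.2.1, c4.2.1], by omega⟩
          · rw [b4.1] at c4; exact absurd c4.1 (by decide)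
          · rw [b4.1] at c4; exact absurd c4.1 (by decide)
          · rw [b4.1] at c4; exact absurd c4.1 (by decide)
          · exact ⟨by rw [b4.2.1, c4.2.1], by omega⟩
          · rw [b4.1] at c4; exact absurd c4.1 (by decide)
          · rw [b4.1] at c4; exact absurd c4.1 (by decide)
          · rw [b4.1] at c4; exact absurd c4.1 (by decide)
          · exact ⟨by rw [b4.2.1, c4.2.1], by omega⟩
        exact Ep.ext' (by omega) (by omega) (by rw [a1, x3]) (by rw [(w4 a1).1, x4]) (by rw [hkx.1, x5]) (by omega)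
  · -- w12
    intro x hx hk h1 h2
    have hx' : x.s = 1 := hx
    have hk' : x.k = 2 := hk
    have h1' : x.X = N - 1 := of_decide_eq_true h1
    have h2' : x.Y = N - 1 := of_decide_eq_true h2
    obtain ⟨v1, v2, v3, v4, v5, v6, v7, v8⟩ := x.val
    have v8' := v8 hk'
    obtain ⟨y, y1, y2, y3, y4, y5, y6⟩ := Ep.mk (N := N) (N - 1) (N - 1) 3 true 1 x.i (by omega) (by omega)
      (ok_ca true 1 (fun h => absurd h (by decide)) (fun _ => by omega) (fun h => absurd h (by decide)))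
    refine ⟨y, ⟨hx', y3, h1', h2', y1, y2, hk', y4, y5, y6.symm⟩, ?_⟩
    rintro y' ⟨-, a2, -, -, a5, a6, -, a8, a9, a10⟩
    exact Ep.ext' (by omega) (by omega) (by rw [a2, y3]) (by rw [a8, y4]) (by rw [a9, y5]) (by omega)
  · -- w13
    intro y hy ht' hk h1 h2
    have hy' : y.s = 3 := hy
    have hk' : y.k = 1 := hk
    have h1' : y.X = N - 1 := of_decide_eq_true h1
    have h2' : y.Y = N - 1 := of_decide_eq_true h2
    obtain ⟨v1, v2, v3, v4, v5, v6, v7, v8⟩ := y.val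
    have v7' := v7 hk'
    obtain ⟨x, x1, x2, x3, x4, x5, x6⟩ := Ep.mk (N := N) (N - 1) (N - 1) 1 true 2 y.i (by omega) (by omega)
      (ok_el _ (by decide) (fun h => absurd h (by decide)) (fun _ => by omega))
    refine ⟨x, ⟨x3, hy', x1, x2, h1', h2', x5, ht', hk', x6⟩, ?_⟩
    rintro x' ⟨a1, -, a3, a4, -, -, a7, -, -, a10⟩
    exact Ep.ext' (by omega) (by omega) (by rw [a1, x3]) (by rw [(x'.val.2.2.2.1 a1).1, x4]) (by rw [a7, x5]) (by omega)
  · -- w14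
    obtain ⟨x, x1, x2, x3, x4, x5, x6⟩ := Ep.mk (N := N) 0 0 0 true 0 0 (by omega) (by omega) ok_pt
    refine ⟨x, ⟨x3, decide_eq_true x1, decide_eq_true x2⟩, ?_⟩
    rintro x' ⟨a1, a2, a3⟩
    have a1' : x'.s = 0 := a1
    have a2' : x'.X = 0 := of_decide_eq_true a2
    have a3' : x'.Y = 0 := of_decide_eq_true a3
    obtain ⟨-, -, w3, w4, w5, w6, w7, w8⟩ := x'.val
    have w3' := w3 a1'
    exact Ep.ext' (by omega) (by omega) (by rw [a1', x3]) (by rw [w3'.1, x4]) (by rw [w3'.2, x5]) (by rw [w6 w3'.2, x6])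

theorem po_complete {W : Wang (Fin q)} (hN : 1 ≤ N) (h : Tiles W N) : 3 * N ^ 3 + 2 * N ^ 2 ∈ szPO W := by
  obtain ⟨f, hR, hU, hl, hr, hb, ht, hc⟩ := h
  refine ⟨Nat.succ_le_of_lt (by positivity), Ep N, inferInstance, mP N, mN N, mN' N, mQ N, mcP N f, ?_,
    po_model hN f hR hU hl hr hb ht hc⟩
  rw [Ep.card_Ep, h80_sum_grid' N hN]

/-- The sizes of the models are the numbers `3 N ^ 3 + 2 N ^ 2` where the square of side `N` can be tiled. -/
theorem po_sizes (W : Wang (Fin q)) (hN : 1 ≤ N) : Tiles W N ↔ 3 * N ^ 3 + 2 * N ^ 2 ∈ szPO W := by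
  refine ⟨po_complete hN, ?_⟩
  rintro ⟨-, M, _, P, N1, N2, Q, c, hcard, H⟩
  obtain ⟨N', hN', hcard', ht⟩ := po_sound H
  have h1 : 3 * N ^ 3 + 2 * N ^ 2 = 3 * N' ^ 3 + 2 * N' ^ 2 := by omega
  have h2 : N = N' := by
    rcases lt_trichotomy N N' with h | h | h
    · have a1 := Nat.pow_lt_pow_left h (n := 3) (by norm_num)
      have a2 := Nat.pow_lt_pow_left h (n := 2) (by norm_num)
      omega
    · exact h
    · have a1 := Nat.pow_lt_pow_left h (n := 3) (by norm_num)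
      have a2 := Nat.pow_lt_pow_left h (n := 2) (by norm_num)
      omega
  rw [h2]
  exact ht

end Pool.Agent.Helper80.PO
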