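import Pool.Agent.Helper29.Prefix.Wang

/-!
# Partial orders of height three: the axioms of the board (wild half of C2)

Level 0: the points `(x, y)` of the board. Level 1: above a point `x` elements of kind 1 and `y` elements of kind 2, and
one edge for each direction, which is also above the next point in this direction. Level 2: carriers; a carrier
is above one edge, and above two elements whose numbers it transports. All elements know the parities of
their point, so that the two points below an edge or a carrier can be distinguished.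
-/

set_option autoImplicit false

namespace Pool.Agent.Helper80.PO

open Pool.Agent.Helper29.Prefix

/-- the colours -/
structure PCol (q : ℕ) where
  /-- `0` point, `1` element, `2` edge, `3` carrier -/
  s : Fin 4
  /-- direction of an edge or a carrier: `true` horizontal -/
  t : Bool
  /-- kind of an element or a carrier -/
  k : Fin 3
  /-- parity of the column -/
  a : Bool
  /-- parity of the row -/
  b : Bool
  /-- the tile -/
  tile : Fin q
  /-- first column -/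
  fl : Bool
  /-- last column -/
  fr : Bool
  /-- first row -/
  fd : Bool
  /-- last row -/
  fu : Bool

/-- the level -/
def lev (s : Fin 4) : ℕ := if s = 0 then 0 else if s = 3 then 2 else 1

/-- the same parities -/
def Own {q : ℕ} (c c' : PCol q) : Prop := c.a = c'.a ∧ c.b = c'.b

/-- the parities of `c` are those of the next point of `c'` -/
def Nx {q : ℕ} (c c' : PCol q) : Prop :=
  (c'.t = true ∧ c.a = !c'.a ∧ c.b = c'.b) ∨ (c'.t = false ∧ c.a = c'.a ∧ c.b = !c'.b)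

/-- the same tile and flags -/
def Inf {q : ℕ} (c c' : PCol q) : Prop :=
  c.tile = c'.tile ∧ c.fl = c'.fl ∧ c.fr = c'.fr ∧ c.fd = c'.fd ∧ c.fu = c'.fu

/-- the last column, or the last row -/
def Bo {q : ℕ} (c : PCol q) : Bool := bif c.t then c.fr else c.fu

/-- the first column, or the first row -/
def Bi {q : ℕ} (t : Bool) (c : PCol q) : Bool := bif t then c.fl else c.fd

/-- the kind which is increased -/
def inc (t : Bool) : Fin 3 := bif t then 1 else 2

/-- `c'` can be the next point of `c` -/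
def NbP {q : ℕ} (W : Wang (Fin q)) (c c' : PCol q) : Prop :=
  Bo c = false ∧ Bi c.t c' = false ∧
    (c.t = true → c.fd = c'.fd ∧ c.fu = c'.fu ∧ W.R c.tile c'.tile) ∧
    (c.t = false → c.fl = c'.fl ∧ c.fr = c'.fr ∧ W.U c.tile c'.tile)

/-- the conditions on one colour -/
def OneP {q : ℕ} (W : Wang (Fin q)) (c : PCol q) : Prop :=
  (c.s = 0 → c.t = true ∧ c.k = 0 ∧ (c.fl = true → W.l c.tile) ∧ (c.fr = true → W.r c.tile) ∧
    (c.fd = true → W.b c.tile) ∧ (c.fu = true → W.t c.tile) ∧ (c.fl = true → c.fd = true → W.c c.tile)) ∧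
  (c.s = 1 → c.t = true ∧ c.k ≠ 0 ∧ (c.fl = true → c.k ≠ 1) ∧ (c.fd = true → c.k ≠ 2)) ∧
  (c.s = 2 → c.k = 0)

/-- the conditions on `x < y` -/
def LtP {q : ℕ} (W : Wang (Fin q)) (c c' : PCol q) : Prop :=
  lev c.s < lev c'.s ∧ (c.s = 0 → c'.s = 1 → Own c c' ∧ Inf c c') ∧
  (c.s = 0 → lev c'.s = 2 ∨ c'.s = 2 → (Own c c' ∧ Inf c c') ∨ (Nx c c' ∧ NbP W c' c))

/-- source link -/
def LkS {q : ℕ} (c c' : PCol q) : Prop := c.s = 1 ∧ c'.s = 3 ∧ Own c c' ∧ c.k = c'.k

/-- target link -/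
def LkT {q : ℕ} (c c' : PCol q) : Prop :=
  c.s = 1 ∧ c'.s = 3 ∧ Nx c c' ∧ (c'.k = 0 → c.k = inc c'.t) ∧ (c'.k ≠ 0 → c.k = c'.k)

/-- corner link -/
def LkQ {q : ℕ} (c c' : PCol q) : Prop :=
  c.s = 1 ∧ c'.s = 3 ∧ Own c c' ∧ c.k = 2 ∧ c'.t = true ∧ c'.k = 1 ∧ c.fr = true ∧ c.fu = true

/-- the axioms -/
structure POAx {q : ℕ} (W : Wang (Fin q)) {M : Type} (P N N' Q : M → M → Prop) (c : M → PCol q) : Prop where
  tr : ∀ x y z, P x y → P y z → P x z
  one : ∀ x, OneP W (c x)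
  lt : ∀ x y, P x y → LtP W (c x) (c y)
  ls : ∀ x y, N x y → P x y ∧ LkS (c x) (c y)
  lt' : ∀ x y, N' x y → P x y ∧ LkT (c x) (c y)
  lq : ∀ x y, Q x y → P x y ∧ LkQ (c x) (c y)
  w1 : ∀ y, (c y).s ≠ 0 → ∃! x, P x y ∧ (c x).s = 0 ∧ Own (c x) (c y)
  w3 : ∀ y, (c y).s = 2 ∨ (c y).s = 3 → Bo (c y) = false → ∃! x, P x y ∧ (c x).s = 0 ∧ Nx (c x) (c y)
  w4 : ∀ x, (c x).s = 0 → ∀ t : Bool, ∃! y, P x y ∧ (c y).s = 2 ∧ (c y).t = t ∧ Own (c x) (c y)
  w5 : ∀ x, (c x).s = 0 → ∀ t : Bool, Bi t (c x) = false → ∃! y, P x y ∧ (c y).s = 2 ∧ (c y).t = t ∧ Nx (c x) (c y)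
  w6 : ∀ y, (c y).s = 3 → ∃! x, P x y ∧ (c x).s = 2 ∧ (c x).t = (c y).t ∧ Own (c x) (c y)
  w7 : ∀ x, (c x).s = 0 → ∀ t : Bool, ∃! y, P x y ∧ (c y).s = 3 ∧ (c y).t = t ∧ (c y).k = 0 ∧ Own (c x) (c y)
  w8 : ∀ x, (c x).s = 1 → ∀ t : Bool, ∃! y, N x y ∧ (c y).t = t
  w9 : ∀ y, (c y).s = 3 → (c y).k ≠ 0 → ∃! x, N x y
  w10 : ∀ x, (c x).s = 1 → ∀ t : Bool, Bi t (c x) = false → ∃! y, N' x y ∧ (c y).t = t
  w11 : ∀ y, (c y).s = 3 → Bo (c y) = false → ∃! x, N' x y
  w12 : ∀ x, (c x).s = 1 → (c x).k = 2 → (c x).fr = true → (c x).fu = true → ∃! y, Q x y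
  w13 : ∀ y, (c y).s = 3 → (c y).t = true → (c y).k = 1 → (c y).fr = true → (c y).fu = true → ∃! x, Q x y
  w14 : ∃! x, (c x).s = 0 ∧ (c x).fl = true ∧ (c x).fd = true

/-- the sizes of the models -/
def szPO {q : ℕ} (W : Wang (Fin q)) : Set ℕ :=
  {n : ℕ | 1 ≤ n ∧ ∃ (M : Type) (_ : Fintype M) (P N N' Q : M → M → Prop) (c : M → PCol q),
    Fintype.card M = n ∧ POAx W P N N' Q c}

end Pool.Agent.Helper80.PO
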