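import Pool.Agent.Helper80.PO.Complete
import Pool.Agent.Helper80.LE.Form

/-!
# Partial orders of height three: the sentence
-/

set_option autoImplicit false

namespace Pool.Agent.Helper80.PO

open Pool.Agent.Helper29.Prefix Pool.Agent.Helper29.C2 Pool.Agent.Helper80.NF Pool.Agent.Helper80.LE

instance {q : ℕ} : Finite (PCol q) := by
  refine Finite.of_injective (β := (Fin 4 × Bool × Fin 3) × (Bool × Bool) × Fin q × (Bool × Bool) × (Bool × Bool))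
    (fun c => ((c.s, c.t, c.k), (c.a, c.b), c.tile, (c.fl, c.fr), (c.fd, c.fu))) ?_
  rintro ⟨a1, a2, a3, a4, a5, a6, a7, a8, a9, a10⟩ ⟨b1, b2, b3, b4, b5, b6, b7, b8, b9, b10⟩ h
  simp only [Prod.mk.injEq] at h
  obtain ⟨⟨rfl, rfl, rfl⟩, ⟨rfl, rfl⟩, rfl, ⟨rfl, rfl⟩, rfl, rfl⟩ := h
  rfl

/-- conditions on pairs; binary relations: `0` source link, `1` target link, `2` corner link -/
def uPO {q : ℕ} (W : Wang (Fin q)) (c c' : PCol q) (f : Fct Unit (Fin 3)) : Prop :=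
  OneP W c ∧ (f.o () → LtP W c c') ∧ (f.b 0 → f.o () ∧ LkS c c') ∧ (f.b 1 → f.o () ∧ LkT c c') ∧
  (f.b 2 → f.o () ∧ LkQ c c')

/-- indices of the conditions `exactly one` -/
inductive Ix
  | w1
  | w3
  | w4 (t : Bool)
  | w5 (t : Bool)
  | w6
  | w7 (t : Bool)
  | w8 (t : Bool)
  | w9
  | w10 (t : Bool)
  | w11
  | w12
  | w13
  | w14

instance : Finite Ix := by
  refine Finite.of_surjective (α := ((Bool ⊕ Bool) ⊕ (Bool ⊕ (Bool ⊕ Bool))) ⊕ Fin 8) (fun x => match x with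
    | Sum.inl (Sum.inl (Sum.inl t)) => Ix.w4 t
    | Sum.inl (Sum.inl (Sum.inr t)) => Ix.w5 t
    | Sum.inl (Sum.inr (Sum.inl t)) => Ix.w7 t
    | Sum.inl (Sum.inr (Sum.inr (Sum.inl t))) => Ix.w8 t
    | Sum.inl (Sum.inr (Sum.inr (Sum.inr t))) => Ix.w10 t
    | Sum.inr i => (![Ix.w1, Ix.w3, Ix.w6, Ix.w9, Ix.w11, Ix.w12, Ix.w13, Ix.w14] : Fin 8 → Ix) i) ?_
  intro i
  rcases i with _ | _ | t | t | _ | t | t | _ | t | _ | _ | _ | _
  · exact ⟨Sum.inr 0, rfl⟩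
  · exact ⟨Sum.inr 1, rfl⟩
  · exact ⟨Sum.inl (Sum.inl (Sum.inl t)), rfl⟩
  · exact ⟨Sum.inl (Sum.inl (Sum.inr t)), rfl⟩
  · exact ⟨Sum.inr 2, rfl⟩
  · exact ⟨Sum.inl (Sum.inr (Sum.inl t)), rfl⟩
  · exact ⟨Sum.inl (Sum.inr (Sum.inr (Sum.inl t))), rfl⟩
  · exact ⟨Sum.inr 3, rfl⟩
  · exact ⟨Sum.inl (Sum.inr (Sum.inr (Sum.inr t))), rfl⟩
  · exact ⟨Sum.inr 4, rfl⟩
  · exact ⟨Sum.inr 5, rfl⟩
  · exact ⟨Sum.inr 6, rfl⟩
  · exact ⟨Sum.inr 7, rfl⟩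

/-- guards -/
def gPO {q : ℕ} : Ix → PCol q → Prop
  | Ix.w1, c => c.s ≠ 0
  | Ix.w3, c => (c.s = 2 ∨ c.s = 3) ∧ Bo c = false
  | Ix.w4 _, c => c.s = 0
  | Ix.w5 t, c => c.s = 0 ∧ Bi t c = false
  | Ix.w6, c => c.s = 3
  | Ix.w7 _, c => c.s = 0
  | Ix.w8 _, c => c.s = 1
  | Ix.w9, c => c.s = 3 ∧ c.k ≠ 0
  | Ix.w10 t, c => c.s = 1 ∧ Bi t c = false
  | Ix.w11, c => c.s = 3 ∧ Bo c = false
  | Ix.w12, c => c.s = 1 ∧ c.k = 2 ∧ c.fr = true ∧ c.fu = true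
  | Ix.w13, c => c.s = 3 ∧ c.t = true ∧ c.k = 1 ∧ c.fr = true ∧ c.fu = true
  | Ix.w14, _ => True

/-- witnesses -/
def wPO {q : ℕ} : Ix → PCol q → PCol q → Fct Unit (Fin 3) → Prop
  | Ix.w1, c, c', f => f.o' () ∧ c'.s = 0 ∧ Own c' c
  | Ix.w3, c, c', f => f.o' () ∧ c'.s = 0 ∧ Nx c' c
  | Ix.w4 t, c, c', f => f.o () ∧ c'.s = 2 ∧ c'.t = t ∧ Own c c'
  | Ix.w5 t, c, c', f => f.o () ∧ c'.s = 2 ∧ c'.t = t ∧ Nx c c'
  | Ix.w6, c, c', f => f.o' () ∧ c'.s = 2 ∧ c'.t = c.t ∧ Own c' c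
  | Ix.w7 t, c, c', f => f.o () ∧ c'.s = 3 ∧ c'.t = t ∧ c'.k = 0 ∧ Own c c'
  | Ix.w8 t, _, c', f => f.b 0 ∧ c'.t = t
  | Ix.w9, _, _, f => f.b' 0
  | Ix.w10 t, _, c', f => f.b 1 ∧ c'.t = t
  | Ix.w11, _, _, f => f.b' 1
  | Ix.w12, _, _, f => f.b 2
  | Ix.w13, _, _, f => f.b' 2
  | Ix.w14, _, c', _ => c'.s = 0 ∧ c'.fl = true ∧ c'.fd = true

lemma poAx_iff {q : ℕ} {W : Wang (Fin q)} {A U : Type} [Nonempty A] (M : Str Unit U (Fin 3) A) (c : A → PCol q)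
    (h0 : ∀ x y z, M.ord () x y → M.ord () y z → M.ord () x z) :
    POAx W (M.ord ()) (M.bin 0) (M.bin 1) (M.bin 2) c ↔
      (∀ x y, uPO W (c x) (c y) (fact M x y)) ∧ ∀ i x, gPO i (c x) → ∃! y, wPO i (c x) (c y) (fact M x y) := by
  constructor
  · intro H
    refine ⟨fun x y => ⟨H.one x, H.lt x y, H.ls x y, H.lt' x y, H.lq x y⟩, ?_⟩
    rintro (_ | _ | t | t | _ | t | t | _ | t | _ | _ | _ | _) x hg
    · exact H.w1 x hg
    · exact H.w3 x hg.1 hg.2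
    · exact H.w4 x hg t
    · exact H.w5 x hg.1 t hg.2
    · exact H.w6 x hg
    · exact H.w7 x hg t
    · exact H.w8 x hg t
    · exact H.w9 x hg.1 hg.2
    · exact H.w10 x hg.1 t hg.2
    · exact H.w11 x hg.1 hg.2
    · exact H.w12 x hg.1 hg.2.1 hg.2.2.1 hg.2.2.2
    · exact H.w13 x hg.1 hg.2.1 hg.2.2.1 hg.2.2.2.1 hg.2.2.2.2
    · exact H.w14
  · rintro ⟨hu, hw⟩
    obtain ⟨a⟩ := ‹Nonempty A›
    exact
    { tr := h0
      one := fun x => (hu x x).1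
      lt := fun x y => (hu x y).2.1
      ls := fun x y => (hu x y).2.2.1
      lt' := fun x y => (hu x y).2.2.2.1
      lq := fun x y => (hu x y).2.2.2.2
      w1 := fun y h => hw Ix.w1 y h
      w3 := fun y h h' => hw Ix.w3 y ⟨h, h'⟩
      w4 := fun x h t => hw (Ix.w4 t) x h
      w5 := fun x h t h' => hw (Ix.w5 t) x ⟨h, h'⟩
      w6 := fun y h => hw Ix.w6 y h
      w7 := fun x h t => hw (Ix.w7 t) x h
      w8 := fun x h t => hw (Ix.w8 t) x h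
      w9 := fun y h h' => hw Ix.w9 y ⟨h, h'⟩
      w10 := fun x h t h' => hw (Ix.w10 t) x ⟨h, h'⟩
      w11 := fun y h h' => hw Ix.w11 y ⟨h, h'⟩
      w12 := fun x h h1 h2 h3 => hw Ix.w12 x ⟨h, h1, h2, h3⟩
      w13 := fun y h h1 h2 h3 h4 => hw Ix.w13 y ⟨h, h1, h2, h3, h4⟩
      w14 := hw Ix.w14 a trivial }

/-- the sentence -/
theorem po_formula {q : ℕ} (W : Wang (Fin q)) : ∃ Φ : Fm Unit (PCol q) (Fin 3),
    ∀ (A : Type) [Nonempty A] (M : Str Unit (PCol q) (Fin 3) A),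
      (∀ x y z, M.ord () x y → M.ord () y z → M.ord () x z) →
      ((∀ e, Sat M Φ e) ↔ ∃ c : A → PCol q, (∀ x P, M.un P x ↔ P = c x) ∧
        POAx W (M.ord ()) (M.bin 0) (M.bin 1) (M.bin 2) c) := by
  obtain ⟨Φ, hΦ⟩ := nf_unique (uPO W) (gPO (q := q)) wPO
  refine ⟨Φ, fun A _ M h0 => ?_⟩
  rw [hΦ]
  exact exists_congr fun c => and_congr_right fun _ => (poAx_iff M c h0).symm

lemma lev_le (s : Fin 4) : lev s ≤ 2 := by
  unfold lev
  split_ifs <;> omega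

/-- For every class `K` of transitive relations which contains all relations with a level function with three values,
there is a two-variable sentence whose models over `K` have the sizes `szPO W`. -/
theorem po_sentence {q : ℕ} (W : Wang (Fin q)) : ∃ Φ : Fm Unit (PCol q) (Fin 3),
    ∀ K : ∀ A : Type, (Unit → A → A → Prop) → Prop,
      (∀ (n : ℕ) (R : Unit → Fin n → Fin n → Prop), K (Fin n) R → ∀ x y z, R () x y → R () y z → R () x z) →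
      (∀ (n : ℕ) (R : Unit → Fin n → Fin n → Prop) (l : Fin n → ℕ), (∀ x, l x ≤ 2) →
        (∀ x y z, R () x y → R () y z → R () x z) → (∀ x y, R () x y → l x < l y) → K (Fin n) R) →
      szPO W = {n : ℕ | 1 ≤ n ∧ ∃ M : Str Unit (PCol q) (Fin 3) (Fin n), K (Fin n) M.ord ∧ ∀ e, Sat M Φ e} := by
  obtain ⟨Φ, hΦ⟩ := po_formula W
  refine ⟨Φ, fun K hK1 hK2 => Set.ext fun n => ?_⟩
  constructor
  · rintro ⟨hn, M, _, P, N, N', Q, c, hcard, H⟩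
    refine ⟨hn, ?_⟩
    haveI : Nonempty M := by
      rw [← Fintype.card_pos_iff]
      omega
    have e : Fin n ≃ M := (Fintype.equivFinOfCardEq hcard).symm
    let M0 : Str Unit (PCol q) (Fin 3) M :=
      ⟨fun _ x y => P x y, fun P x => P = c x,
        fun i x y => if i = 0 then N x y else if i = 1 then N' x y else Q x y⟩
    refine ⟨trS e M0, hK2 n _ (fun x => lev (c (e x)).s) (fun x => lev_le _) (fun x y z => H.tr _ _ _)
      (fun x y h => (H.lt _ _ h).1), ?_⟩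
    intro w
    rw [sat_trS]
    exact (hΦ M M0 H.tr).2 ⟨c, fun x P => Iff.rfl, H⟩ _
  · rintro ⟨hn, M, h0, hs⟩
    haveI : Nonempty (Fin n) := ⟨⟨0, hn⟩⟩
    obtain ⟨c, -, H⟩ := (hΦ (Fin n) M (hK1 n _ h0)).1 hs
    exact ⟨hn, Fin n, inferInstance, _, _, _, _, c, Fintype.card_fin n, H⟩

end Pool.Agent.Helper80.PO
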