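import Pool.Agent.Helper80.PO.Defs
import Pool.Agent.Helper80.TE.Sound2

/-!
# Partial orders of height three: from a model to a tiling
-/

set_option autoImplicit false

namespace Pool.Agent.Helper80.PO

open Pool.Agent.Helper29.Prefix Pool.Agent.Helper80.TE

variable {q : ℕ} {W : Wang (Fin q)} {M : Type} {P N N' Q : M → M → Prop} {c : M → PCol q}

/-- the number of elements of kind `k` of a point -/
noncomputable def el (P : M → M → Prop) (c : M → PCol q) (k : Fin 3) (p : M) : ℕ :=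
  Nat.card {x : M // (c x).s = 1 ∧ (c x).k = k ∧ P p x}

/-- the number of carriers of kind `k` and direction `t` of a point -/
noncomputable def ca (P : M → M → Prop) (c : M → PCol q) (t : Bool) (k : Fin 3) (p : M) : ℕ :=
  Nat.card {y : M // (c y).s = 3 ∧ (c y).t = t ∧ (c y).k = k ∧ P p y ∧ Own (c p) (c y)}

lemma own_nx {c c' : PCol q} (h : Own c c') (h' : Nx c c') : False := by
  obtain ⟨h1, h2⟩ := h
  rcases h' with ⟨-, h3, h4⟩ | ⟨-, h3, h4⟩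
  · rw [h1] at h3; revert h3; cases c'.a <;> decide
  · rw [h2] at h4; revert h4; cases c'.b <;> decide

lemma nx_congr {c d e e' : PCol q} (h : Own c d) (h' : Own e e') (ht : e.t = e'.t) (hn : Nx c e) : Nx d e' := by
  unfold Nx at *
  rw [← h.1, ← h.2, ← h'.1, ← h'.2, ← ht]
  exact hn

section

variable (H : POAx W P N N' Q c)
include H

/-- the point below an element -/
lemma pt_el {p x : M} (hp : (c p).s = 0) (hx : (c x).s = 1) (h : P p x) : Own (c p) (c x) ∧ Inf (c p) (c x) :=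
  (H.lt p x h).2.1 hp hx

lemma own_uniq {p p' y : M} (hy : (c y).s ≠ 0) (h1 : P p y) (h2 : (c p).s = 0) (h3 : Own (c p) (c y))
    (h1' : P p' y) (h2' : (c p').s = 0) (h3' : Own (c p') (c y)) : p = p' := by
  obtain ⟨z, -, hz⟩ := H.w1 y hy
  rw [hz p ⟨h1, h2, h3⟩, hz p' ⟨h1', h2', h3'⟩]

lemma inf_of_own {p y : M} (hp : (c p).s = 0) (h : P p y) (ho : Own (c p) (c y)) : Inf (c p) (c y) := by
  have hl := H.lt p y h
  have h4 : (c y).s = 0 ∨ (c y).s = 1 ∨ (c y).s = 2 ∨ (c y).s = 3 := by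
    generalize (c y).s = r; revert r; decide
  rcases h4 with h4 | h4 | h4 | h4
  · have := hl.1
    rw [hp, h4] at this
    exact absurd this (by decide)
  · exact (hl.2.1 hp h4).2
  · rcases hl.2.2 hp (Or.inr h4) with h5 | h5
    · exact h5.2
    · exact (own_nx ho h5.1).elim
  · rcases hl.2.2 hp (Or.inl (by rw [h4]; decide)) with h5 | h5
    · exact h5.2
    · exact (own_nx ho h5.1).elim

lemma ca_el {p : M} (hp : (c p).s = 0) (t : Bool) {k : Fin 3} (hk : k ≠ 0) : ca P c t k p = el P c k p := by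
  symm
  refine h80_card_eq (fun x y => N x.1 y.1) ?_ ?_
  · rintro ⟨x, x1, x2, x3⟩
    obtain ⟨y, ⟨y1, y2⟩, y3⟩ := H.w8 x x1 t
    obtain ⟨l1, l2, l3, l4, l5⟩ := H.ls x y y1
    have ho := (pt_el H hp x1 x3).1
    exact ⟨⟨y, l3, y2, by rw [← l5, x2], H.tr _ _ _ x3 l1, ho.1.trans l4.1, ho.2.trans l4.2⟩, y1,
      fun z hz => Subtype.ext (y3 z.1 ⟨hz, z.2.2.1⟩)⟩
  · rintro ⟨y, y1, y2, y3, y4, y5⟩
    obtain ⟨x, x1, x2⟩ := H.w9 y y1 (by rw [y3]; exact hk)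
    obtain ⟨l1, l2, l3, l4, l5⟩ := H.ls x y x1
    obtain ⟨p', ⟨a1, a2, a3⟩, -⟩ := H.w1 x (by rw [l2]; decide)
    have : p' = p := own_uniq H (by rw [y1]; decide) (H.tr _ _ _ a1 l1) a2 ⟨a3.1.trans l4.1, a3.2.trans l4.2⟩ y4 hp y5
    subst this
    exact ⟨⟨x, l2, by rw [l5, y3], a1⟩, x1, fun z hz => Subtype.ext (x2 z.1 hz)⟩

lemma ca_zero {p : M} (hp : (c p).s = 0) (t : Bool) : ca P c t 0 p = 1 := by
  obtain ⟨y, ⟨y1, y2, y3, y4, y5⟩, hy'⟩ := H.w7 p hp t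
  unfold ca
  haveI : Unique {y : M // (c y).s = 3 ∧ (c y).t = t ∧ (c y).k = 0 ∧ P p y ∧ Own (c p) (c y)} :=
    ⟨⟨⟨y, y2, y3, y4, y1, y5⟩⟩, fun z => Subtype.ext (hy' z.1 ⟨z.2.2.2.2.1, z.2.1, z.2.2.1, z.2.2.2.1, z.2.2.2.2.2⟩)⟩
  exact Nat.card_unique

/-- `p'` is the next point of `p` in the direction `t` -/
def Rt (P : M → M → Prop) (c : M → PCol q) (t : Bool) (p p' : M) : Prop :=
  ∃ e, (c e).s = 2 ∧ (c e).t = t ∧ P p e ∧ Own (c p) (c e) ∧ P p' e ∧ Nx (c p') (c e)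

lemma rt_nb {t : Bool} {p p' : M} (hp : (c p).s = 0) (hp' : (c p').s = 0) (h : Rt P c t p p') :
    ∃ e, (c e).s = 2 ∧ (c e).t = t ∧ P p e ∧ Own (c p) (c e) ∧ P p' e ∧ Nx (c p') (c e) ∧ Inf (c p) (c e) ∧
      NbP W (c e) (c p') := by
  obtain ⟨e, h1, h2, h3, h4, h5, h6⟩ := h
  refine ⟨e, h1, h2, h3, h4, h5, h6, inf_of_own H hp h3 h4, ?_⟩
  rcases (H.lt p' e h5).2.2 hp' (Or.inr h1) with h7 | h7
  · exact (own_nx h7.1 h6).elim
  · exact h7.2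

/-- the points of a carrier are the points of its edge -/
lemma car_iff {t : Bool} {p p' y : M} (hp : (c p).s = 0) (hp' : (c p').s = 0) (h : Rt P c t p p')
    (hy : (c y).s = 3) (ht : (c y).t = t) : (P p y ∧ Own (c p) (c y)) ↔ (P p' y ∧ Nx (c p') (c y)) := by
  obtain ⟨e, h1, h2, h3, h4, h5, h6, h7, h8⟩ := rt_nb H hp hp' h
  obtain ⟨e', ⟨a1, a2, a3, a4⟩, -⟩ := H.w6 y hy
  constructor
  · rintro ⟨b1, b2⟩
    -- the own point of `e'`
    obtain ⟨p1, ⟨d1, d2, d3⟩, -⟩ := H.w1 e' (by rw [a2]; decide)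
    have e1 : p1 = p := own_uniq H (by rw [hy]; decide) (H.tr _ _ _ d1 a1) d2 ⟨d3.1.trans a4.1, d3.2.trans a4.2⟩ b1 hp b2
    subst e1
    obtain ⟨z, -, hz⟩ := H.w4 p1 hp t
    have e2 : e' = e := by rw [hz e' ⟨d1, a2, by rw [a3, ht], d3⟩, hz e ⟨h3, h1, h2, h4⟩]
    subst e2
    exact ⟨H.tr _ _ _ h5 a1, nx_congr ⟨rfl, rfl⟩ a4 a3 h6⟩
  · rintro ⟨b1, b2⟩
    -- the edge `e'` is not at the border
    have hlt := (H.lt p' y b1).2.2 hp' (Or.inl (by rw [hy]; decide))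
    have hbo : Bo (c y) = false := by
      rcases hlt with h9 | h9
      · exact (own_nx h9.1 b2).elim
      · exact h9.2.1
    obtain ⟨p1, ⟨d1, d2, d3⟩, -⟩ := H.w1 e' (by rw [a2]; decide)
    have i1 := inf_of_own H d2 d1 d3
    have i2 := inf_of_own H d2 (H.tr _ _ _ d1 a1) ⟨d3.1.trans a4.1, d3.2.trans a4.2⟩
    have hbo' : Bo (c e') = false := by
      unfold Bo at hbo ⊢
      rw [a3, ← i1.2.2.1, ← i1.2.2.2.2, i2.2.2.1, i2.2.2.2.2]
      exact hbo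
    obtain ⟨p2, ⟨f1, f2, f3⟩, -⟩ := H.w3 e' (Or.inl a2) hbo'
    obtain ⟨z, -, hz⟩ := H.w3 y (Or.inr hy) hbo
    have e1 : p2 = p' := by
      rw [hz p2 ⟨H.tr _ _ _ f1 a1, f2, nx_congr ⟨rfl, rfl⟩ a4 a3 f3⟩, hz p' ⟨b1, hp', b2⟩]
    subst e1
    obtain ⟨w, -, hw⟩ := H.w5 p2 hp' t (by rw [← h2]; exact h8.2.1)
    have e2 : e' = e := by rw [hw e' ⟨f1, a2, by rw [a3, ht], f3⟩, hw e ⟨h5, h1, h2, h6⟩]
    subst e2
    exact ⟨H.tr _ _ _ h3 a1, h4.1.trans a4.1, h4.2.trans a4.2⟩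

lemma rt_el [Finite M] {t : Bool} {p p' : M} (hp : (c p).s = 0) (hp' : (c p').s = 0) (h : Rt P c t p p')
    {k : Fin 3} (hk : k ≠ 0) : el P c k p' = el P c k p + (if k = inc t then 1 else 0) := by
  classical
  haveI := Fintype.ofFinite M
  obtain ⟨e, h1, h2, h3, h4, h5, h6, h7, h8⟩ := rt_nb H hp hp' h
  have key : el P c k p' = Nat.card {y : M // (c y).s = 3 ∧ (c y).t = t ∧ (P p y ∧ Own (c p) (c y)) ∧
      ((c y).k = k ∨ ((c y).k = 0 ∧ k = inc t))} := by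
    refine h80_card_eq (fun x y => N' x.1 y.1) ?_ ?_
    · rintro ⟨x, x1, x2, x3⟩
      have ho := pt_el H hp' x1 x3
      have hbi : Bi t (c x) = false := by
        have := h8.2.1
        unfold Bi at this ⊢
        rw [← ho.2.2.1, ← ho.2.2.2.2.1, ← h2]
        exact this
      obtain ⟨y, ⟨y1, y2⟩, y3⟩ := H.w10 x x1 t hbi
      obtain ⟨l1, l2, l3, l4, l5, l6⟩ := H.lt' x y y1
      have hy : P p' y ∧ Nx (c p') (c y) :=
        ⟨H.tr _ _ _ x3 l1, nx_congr ⟨ho.1.1.symm, ho.1.2.symm⟩ ⟨rfl, rfl⟩ rfl l4⟩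
      refine ⟨⟨y, l3, y2, (car_iff H hp hp' h l3 y2).2 hy, ?_⟩, y1, fun z hz => Subtype.ext (y3 z.1 ⟨hz, z.2.2.1⟩)⟩
      by_cases hk0 : (c y).k = 0
      · right
        have := l5 hk0
        rw [x2, y2] at this
        exact ⟨hk0, this⟩
      · left
        rw [← l6 hk0, x2]
    · rintro ⟨y, y1, y2, y3, y4⟩
      have hy := (car_iff H hp hp' h y1 y2).1 y3
      have hbo : Bo (c y) = false := by
        rcases (H.lt p' y hy.1).2.2 hp' (Or.inl (by rw [y1]; decide)) with h9 | h9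
        · exact (own_nx h9.1 hy.2).elim
        · exact h9.2.1
      obtain ⟨x, x1, x2⟩ := H.w11 y y1 hbo
      obtain ⟨l1, l2, l3, l4, l5, l6⟩ := H.lt' x y x1
      obtain ⟨p2, ⟨a1, a2, a3⟩, -⟩ := H.w1 x (by rw [l2]; decide)
      obtain ⟨z, -, hz⟩ := H.w3 y (Or.inr y1) hbo
      have : p2 = p' := by
        rw [hz p2 ⟨H.tr _ _ _ a1 l1, a2, nx_congr ⟨a3.1.symm, a3.2.symm⟩ ⟨rfl, rfl⟩ rfl l4⟩, hz p' ⟨hy.1, hp', hy.2⟩]
      subst this
      refine ⟨⟨x, l2, ?_, a1⟩, x1, fun z hz => Subtype.ext (x2 z.1 hz)⟩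
      rcases y4 with y4 | ⟨y4, y5⟩
      · rw [l6 (by rw [y4]; exact hk), y4]
      · rw [l5 y4, y2, y5]
  rw [key]
  have hsplit : Nat.card {y : M // (c y).s = 3 ∧ (c y).t = t ∧ (P p y ∧ Own (c p) (c y)) ∧
      ((c y).k = k ∨ ((c y).k = 0 ∧ k = inc t))} = ca P c t k p + (if k = inc t then ca P c t 0 p else 0) := by
    unfold ca
    by_cases hki : k = inc t
    · rw [if_pos hki]
      simp only [Nat.card_eq_fintype_card, Fintype.card_subtype]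
      rw [← Finset.card_union_of_disjoint]
      · congr 1
        ext y
        simp only [Finset.mem_filter, Finset.mem_univ, true_and, Finset.mem_union]
        constructor
        · rintro ⟨a1, a2, a3, a4 | a4⟩
          · exact Or.inl ⟨a1, a2, a4, a3⟩
          · exact Or.inr ⟨a1, a2, a4.1, a3⟩
        · rintro (⟨a1, a2, a3, a4⟩ | ⟨a1, a2, a3, a4⟩)
          · exact ⟨a1, a2, a4, Or.inl a3⟩
          · exact ⟨a1, a2, a4, Or.inr ⟨a3, hki⟩⟩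
      · rw [Finset.disjoint_left]
        intro y hy hy'
        simp only [Finset.mem_filter, Finset.mem_univ, true_and] at hy hy'
        exact hk (hy.2.2.1.symm.trans hy'.2.2.1)
    · rw [if_neg hki, add_zero]
      congr 1
      have : ∀ y, ((c y).s = 3 ∧ (c y).t = t ∧ (P p y ∧ Own (c p) (c y)) ∧
          ((c y).k = k ∨ ((c y).k = 0 ∧ k = inc t))) ↔
          ((c y).s = 3 ∧ (c y).t = t ∧ (c y).k = k ∧ P p y ∧ Own (c p) (c y)) := by
        intro y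
        constructor
        · rintro ⟨a1, a2, a3, a4 | a4⟩
          · exact ⟨a1, a2, a4, a3⟩
          · exact absurd a4.2 hki
        · rintro ⟨a1, a2, a3, a4⟩
          exact ⟨a1, a2, a4, Or.inl a3⟩
      simp only [this]
  rw [hsplit, ca_el H hp t hk]
  by_cases hki : k = inc t
  · rw [if_pos hki, if_pos hki, ca_zero H hp t]
  · rw [if_neg hki, if_neg hki]

/-- the grid of the points -/
theorem grd [Finite M] : Grd (P := {p : M // (c p).s = 0}) (fun p => el P c 1 p.1) (fun p => el P c 2 p.1)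
    (fun p => (c p.1).fl) (fun p => (c p.1).fr) (fun p => (c p.1).fd) (fun p => (c p.1).fu)
    (fun p p' => Rt P c true p.1 p'.1) (fun p p' => Rt P c false p.1 p'.1) where
  hR := by
    rintro ⟨p, hp⟩ ⟨p', hp'⟩ h
    have e1 := rt_el H hp hp' h (k := 1) (by decide)
    have e2 := rt_el H hp hp' h (k := 2) (by decide)
    rw [if_pos (by decide)] at e1
    rw [if_neg (by decide)] at e2
    obtain ⟨e, h1, h2, h3, h4, h5, h6, h7, h8⟩ := rt_nb H hp hp' h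
    unfold NbP Bo Bi at h8
    rw [h2] at h8
    have h9 := h8.2.2.1 rfl
    refine ⟨e1, e2, ?_, h8.2.1, ?_, ?_⟩
    · show (c p).fr = false
      rw [h7.2.2.1]
      exact h8.1
    · show (c p).fd = (c p').fd
      rw [h7.2.2.2.1, h9.1]
    · show (c p).fu = (c p').fu
      rw [h7.2.2.2.2, h9.2.1]
  hU := by
    rintro ⟨p, hp⟩ ⟨p', hp'⟩ h
    have e1 := rt_el H hp hp' h (k := 1) (by decide)
    have e2 := rt_el H hp hp' h (k := 2) (by decide)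
    rw [if_neg (by decide)] at e1
    rw [if_pos (by decide)] at e2
    obtain ⟨e, h1, h2, h3, h4, h5, h6, h7, h8⟩ := rt_nb H hp hp' h
    unfold NbP Bo Bi at h8
    rw [h2] at h8
    have h9 := h8.2.2.2 rfl
    refine ⟨e1, e2, ?_, h8.2.1, ?_, ?_⟩
    · show (c p).fu = false
      rw [h7.2.2.2.2]
      exact h8.1
    · show (c p).fl = (c p').fl
      rw [h7.2.1, h9.1]
    · show (c p).fr = (c p').fr
      rw [h7.2.2.1, h9.2.1]
  R1 := by
    rintro ⟨p, hp⟩ hf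
    obtain ⟨e, ⟨e1, e2, e3, e4⟩, -⟩ := H.w4 p hp true
    have hi := inf_of_own H hp e1 e4
    obtain ⟨p', ⟨a1, a2, a3⟩, -⟩ := H.w3 e (Or.inl e2) (by unfold Bo; rw [e3, ← hi.2.2.1]; exact hf)
    exact ⟨⟨p', a2⟩, e, e2, e3, e1, e4, a1, a3⟩
  R2 := by
    rintro ⟨p', hp'⟩ hf
    obtain ⟨e, ⟨e1, e2, e3, e4⟩, -⟩ := H.w5 p' hp' true hf
    obtain ⟨p, ⟨a1, a2, a3⟩, -⟩ := H.w1 e (by rw [e2]; decide)
    exact ⟨⟨p, a2⟩, e, e2, e3, a1, a3, e1, e4⟩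
  R3 := by
    rintro ⟨p, hp⟩ ⟨p', hp'⟩ ⟨p'', hp''⟩ h h'
    obtain ⟨e, h1, h2, h3, h4, h5, h6, h7, h8⟩ := rt_nb H hp hp' h
    obtain ⟨e', h1', h2', h3', h4', h5', h6', h7', h8'⟩ := rt_nb H hp hp'' h'
    obtain ⟨z, -, hz⟩ := H.w4 p hp true
    have e2 : e = e' := by rw [hz e ⟨h3, h1, h2, h4⟩, hz e' ⟨h3', h1', h2', h4'⟩]
    subst e2
    obtain ⟨w, -, hw⟩ := H.w3 e (Or.inl h1) h8.1
    exact Subtype.ext ((hw p' ⟨h5, hp', h6⟩).trans (hw p'' ⟨h5', hp'', h6'⟩).symm)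
  U1 := by
    rintro ⟨p, hp⟩ hf
    obtain ⟨e, ⟨e1, e2, e3, e4⟩, -⟩ := H.w4 p hp false
    have hi := inf_of_own H hp e1 e4
    obtain ⟨p', ⟨a1, a2, a3⟩, -⟩ := H.w3 e (Or.inl e2) (by unfold Bo; rw [e3, ← hi.2.2.2.2]; exact hf)
    exact ⟨⟨p', a2⟩, e, e2, e3, e1, e4, a1, a3⟩
  U2 := by
    rintro ⟨p', hp'⟩ hf
    obtain ⟨e, ⟨e1, e2, e3, e4⟩, -⟩ := H.w5 p' hp' false hf
    obtain ⟨p, ⟨a1, a2, a3⟩, -⟩ := H.w1 e (by rw [e2]; decide)
    exact ⟨⟨p, a2⟩, e, e2, e3, a1, a3, e1, e4⟩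
  U3 := by
    rintro ⟨p, hp⟩ ⟨p', hp'⟩ ⟨p'', hp''⟩ h h'
    obtain ⟨e, h1, h2, h3, h4, h5, h6, h7, h8⟩ := rt_nb H hp hp' h
    obtain ⟨e', h1', h2', h3', h4', h5', h6', h7', h8'⟩ := rt_nb H hp hp'' h'
    obtain ⟨z, -, hz⟩ := H.w4 p hp false
    have e2 : e = e' := by rw [hz e ⟨h3, h1, h2, h4⟩, hz e' ⟨h3', h1', h2', h4'⟩]
    subst e2
    obtain ⟨w, -, hw⟩ := H.w3 e (Or.inl h1) h8.1
    exact Subtype.ext ((hw p' ⟨h5, hp', h6⟩).trans (hw p'' ⟨h5', hp'', h6'⟩).symm)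
  hl := by
    rintro ⟨p, hp⟩ hf
    show el P c 1 p = 0
    unfold el
    haveI : IsEmpty {x : M // (c x).s = 1 ∧ (c x).k = 1 ∧ P p x} := by
      refine ⟨fun x => ?_⟩
      obtain ⟨x, x1, x2, x3⟩ := x
      have hi := (pt_el H hp x1 x3).2
      exact ((H.one x).2.1 x1).2.2.1 (by rw [← hi.2.1]; exact hf) x2
    exact Nat.card_of_isEmpty
  hd := by
    rintro ⟨p, hp⟩ hf
    show el P c 2 p = 0
    unfold el
    haveI : IsEmpty {x : M // (c x).s = 1 ∧ (c x).k = 2 ∧ P p x} := by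
      refine ⟨fun x => ?_⟩
      obtain ⟨x, x1, x2, x3⟩ := x
      have hi := (pt_el H hp x1 x3).2
      exact ((H.one x).2.1 x1).2.2.2 (by rw [← hi.2.2.2.1]; exact hf) x2
    exact Nat.card_of_isEmpty
  o := by
    obtain ⟨x, ⟨x1, x2, x3⟩, hx⟩ := H.w14
    exact ⟨⟨x, x1⟩, ⟨x2, x3⟩, fun y hy => Subtype.ext (hx y.1 ⟨y.2, hy.1, hy.2⟩)⟩
  hc := by
    rintro ⟨p, hp⟩ hf hf'
    show el P c 1 p = el P c 2 p
    rw [← ca_el H hp true (k := 1) (by decide)]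
    symm
    refine h80_card_eq (fun x y => Q x.1 y.1) ?_ ?_
    · rintro ⟨x, x1, x2, x3⟩
      have hi := pt_el H hp x1 x3
      obtain ⟨y, y1, y2⟩ := H.w12 x x1 x2 (by rw [← hi.2.2.2.1]; exact hf) (by rw [← hi.2.2.2.2.2]; exact hf')
      obtain ⟨l1, l2, l3, l4, l5, l6, l7, l8⟩ := H.lq x y y1
      exact ⟨⟨y, l3, l6, l7, H.tr _ _ _ x3 l1, hi.1.1.trans l4.1, hi.1.2.trans l4.2⟩, y1,
        fun z hz => Subtype.ext (y2 z.1 hz)⟩
    · rintro ⟨y, y1, y2, y3, y4, y5⟩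
      have hi := inf_of_own H hp y4 y5
      obtain ⟨x, x1, x2⟩ := H.w13 y y1 y2 y3 (by rw [← hi.2.2.1]; exact hf) (by rw [← hi.2.2.2.2]; exact hf')
      obtain ⟨l1, l2, l3, l4, l5, l6, l7, l8⟩ := H.lq x y x1
      obtain ⟨p', ⟨a1, a2, a3⟩, -⟩ := H.w1 x (by rw [l2]; decide)
      have : p' = p := own_uniq H (by rw [y1]; decide) (H.tr _ _ _ a1 l1) a2 ⟨a3.1.trans l4.1, a3.2.trans l4.2⟩ y4 hp y5
      subst this
      exact ⟨⟨x, l2, l5, a1⟩, x1, fun z hz => Subtype.ext (x2 z.1 hz)⟩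

end

end Pool.Agent.Helper80.PO
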