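import Pool.Agent.Helper80.PO.Sound

/-!
# Partial orders of height three: the size of a model
-/

set_option autoImplicit false

namespace Pool.Agent.Helper80.PO

open Pool.Agent.Helper29.Prefix Pool.Agent.Helper80.TE

variable {q : ℕ} {W : Wang (Fin q)} {M : Type} {P N N' Q : M → M → Prop} {c : M → PCol q}

lemma h80_sum_grid' (N : ℕ) (hN : 1 ≤ N) : ∑ p : Fin N × Fin N, (5 + 3 * (p.1.1 + p.2.1)) = 3 * N ^ 3 + 2 * N ^ 2 := by
  have h1 := h80_sum_grid N hN
  have h2 : ∑ p : Fin N × Fin N, (5 + 3 * (p.1.1 + p.2.1)) =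
      3 * (∑ p : Fin N × Fin N, (1 + p.1.1 + p.2.1)) + ∑ _p : Fin N × Fin N, 2 := by
    rw [Finset.mul_sum, ← Finset.sum_add_distrib]
    refine Finset.sum_congr rfl fun p _ => ?_
    ring
  rw [h2, h1, Finset.sum_const, Finset.card_univ, Fintype.card_prod, Fintype.card_fin, smul_eq_mul]
  ring

/-- the own point of an element -/
def Ow (P : M → M → Prop) (c : M → PCol q) (p z : M) : Prop :=
  ((c z).s = 0 ∧ p = z) ∨ ((c z).s ≠ 0 ∧ P p z ∧ (c p).s = 0 ∧ Own (c p) (c z))

/-- the number of elements with a given point and sort -/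
def val (e1 e2 : ℕ) (s : Fin 4) (t : Bool) (k : Fin 3) : ℕ :=
  if s = 0 then (if t = true ∧ k = 0 then 1 else 0)
  else if s = 1 then (if t = true then (if k = 0 then 0 else if k = 1 then e1 else e2) else 0)
  else if s = 2 then (if k = 0 then 1 else 0)
  else (if k = 0 then 1 else if k = 1 then e1 else e2)

lemma sum_val (e1 e2 : ℕ) : ∑ s : Fin 4, ∑ t : Bool, ∑ k : Fin 3, val e1 e2 s t k = 5 + 3 * (e1 + e2) := by
  simp only [Fin.sum_univ_four, Fintype.sum_bool, Fin.sum_univ_three]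
  simp [val]
  ring

theorem card_fib [Finite M] (H : POAx W P N N' Q c) {p : M} (hp : (c p).s = 0) (s : Fin 4) (t : Bool) (k : Fin 3) :
    Nat.card {z : M // Ow P c p z ∧ (c z).s = s ∧ (c z).t = t ∧ (c z).k = k} =
      val (el P c 1 p) (el P c 2 p) s t k := by
  have hs : s = 0 ∨ s = 1 ∨ s = 2 ∨ s = 3 := by revert s; decide
  have hk : k = 0 ∨ k = 1 ∨ k = 2 := by revert k; decide
  rcases hs with rfl | rfl | rfl | rfl
  · -- points
    unfold val
    rw [if_pos rfl]
    by_cases h : t = true ∧ k = 0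
    · rw [if_pos h]
      have hone := (H.one p).1 hp
      haveI : Unique {z : M // Ow P c p z ∧ (c z).s = 0 ∧ (c z).t = t ∧ (c z).k = k} := by
        refine ⟨⟨⟨p, Or.inl ⟨hp, rfl⟩, hp, by rw [hone.1, h.1], by rw [hone.2.1, h.2]⟩⟩, ?_⟩
        rintro ⟨z, z1, z2, -⟩
        rcases z1 with z1 | z1
        · exact Subtype.ext z1.2.symm
        · exact absurd z2 z1.1
      exact Nat.card_unique
    · rw [if_neg h]
      haveI : IsEmpty {z : M // Ow P c p z ∧ (c z).s = 0 ∧ (c z).t = t ∧ (c z).k = k} := by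
        refine ⟨?_⟩
        rintro ⟨z, z1, z2, z3, z4⟩
        have hone := (H.one z).1 z2
        exact h ⟨by rw [← z3, hone.1], by rw [← z4, hone.2.1]⟩
      exact Nat.card_of_isEmpty
  · -- elements
    have e : ∀ z : M, (Ow P c p z ∧ (c z).s = 1 ∧ (c z).t = t ∧ (c z).k = k) ↔
        (t = true ∧ k ≠ 0) ∧ ((c z).s = 1 ∧ (c z).k = k ∧ P p z) := by
      intro z
      constructor
      · rintro ⟨z1, z2, z3, z4⟩
        have hone := (H.one z).2.1 z2
        refine ⟨⟨by rw [← z3, hone.1], by rw [← z4]; exact hone.2.1⟩, z2, z4, ?_⟩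
        rcases z1 with z1 | z1
        · rw [z2] at z1
          exact absurd z1.1 (by decide)
        · exact z1.2.1
      · rintro ⟨⟨h1, h2⟩, z2, z4, z5⟩
        have hone := (H.one z).2.1 z2
        exact ⟨Or.inr ⟨by rw [z2]; decide, z5, hp, (pt_el H hp z2 z5).1⟩, z2, by rw [hone.1, h1], z4⟩
    simp only [e]
    unfold val
    rw [if_neg (by decide), if_pos rfl]
    by_cases h : t = true ∧ k ≠ 0
    · rw [if_pos h.1, if_neg h.2]
      simp only [h, ne_eq, not_false_eq_true, and_self, true_and]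
      rcases hk with rfl | rfl | rfl
      · exact absurd rfl h.2
      · rw [if_pos rfl]
        rfl
      · rw [if_neg (by decide)]
        rfl
    · have h0 : (if t = true then (if k = 0 then 0 else if k = 1 then el P c 1 p else el P c 2 p) else 0) = 0 := by
        by_cases ht : t = true
        · rw [if_pos ht]
          have : k = 0 := by
            by_contra hk0
            exact h ⟨ht, hk0⟩
          rw [if_pos this]
        · rw [if_neg ht]
      rw [h0]
      haveI : IsEmpty {z : M // (t = true ∧ k ≠ 0) ∧ ((c z).s = 1 ∧ (c z).k = k ∧ P p z)} :=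
        ⟨fun z => h z.2.1⟩
      exact Nat.card_of_isEmpty
  · -- edges
    unfold val
    rw [if_neg (by decide), if_neg (by decide), if_pos rfl]
    by_cases h : k = 0
    · rw [if_pos h]
      obtain ⟨e, ⟨e1, e2, e3, e4⟩, he⟩ := H.w4 p hp t
      haveI : Unique {z : M // Ow P c p z ∧ (c z).s = 2 ∧ (c z).t = t ∧ (c z).k = k} := by
        refine ⟨⟨⟨e, Or.inr ⟨by rw [e2]; decide, e1, hp, e4⟩, e2, e3, by rw [(H.one e).2.2 e2, h]⟩⟩, ?_⟩
        rintro ⟨z, z1, z2, z3, -⟩
        rcases z1 with z1 | z1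
        · rw [z2] at z1
          exact absurd z1.1 (by decide)
        · exact Subtype.ext (he z ⟨z1.2.1, z2, z3, z1.2.2.2⟩)
      exact Nat.card_unique
    · rw [if_neg h]
      haveI : IsEmpty {z : M // Ow P c p z ∧ (c z).s = 2 ∧ (c z).t = t ∧ (c z).k = k} := by
        refine ⟨?_⟩
        rintro ⟨z, z1, z2, z3, z4⟩
        exact h (by rw [← z4, (H.one z).2.2 z2])
      exact Nat.card_of_isEmpty
  · -- carriers
    have e : ∀ z : M, (Ow P c p z ∧ (c z).s = 3 ∧ (c z).t = t ∧ (c z).k = k) ↔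
        ((c z).s = 3 ∧ (c z).t = t ∧ (c z).k = k ∧ P p z ∧ Own (c p) (c z)) := by
      intro z
      constructor
      · rintro ⟨z1, z2, z3, z4⟩
        rcases z1 with z1 | z1
        · rw [z2] at z1
          exact absurd z1.1 (by decide)
        · exact ⟨z2, z3, z4, z1.2.1, z1.2.2.2⟩
      · rintro ⟨z2, z3, z4, z5, z6⟩
        exact ⟨Or.inr ⟨by rw [z2]; decide, z5, hp, z6⟩, z2, z3, z4⟩
    simp only [e]
    show ca P c t k p = _
    unfold val
    rw [if_neg (by decide), if_neg (by decide), if_neg (by decide)]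
    rcases hk with rfl | rfl | rfl
    · rw [if_pos rfl, ca_zero H hp t]
    · rw [if_neg (by decide), if_pos rfl, ca_el H hp t (by decide)]
    · rw [if_neg (by decide), if_neg (by decide), ca_el H hp t (by decide)]

theorem card_model [Fintype M] (H : POAx W P N N' Q c) :
    Fintype.card M = ∑ᶠ p : {p : M // (c p).s = 0}, (5 + 3 * (el P c 1 p.1 + el P c 2 p.1)) := by
  classical
  rw [finsum_eq_sum_of_fintype]
  have hrep : ∀ z : M, ∃ p : {p : M // (c p).s = 0}, Ow P c p.1 z := by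
    intro z
    by_cases hz : (c z).s = 0
    · exact ⟨⟨z, hz⟩, Or.inl ⟨hz, rfl⟩⟩
    · obtain ⟨p, ⟨p1, p2, p3⟩, -⟩ := H.w1 z hz
      exact ⟨⟨p, p2⟩, Or.inr ⟨hz, p1, p2, p3⟩⟩
  choose rep hr using hrep
  have hrep' : ∀ (z : M) (p : {p : M // (c p).s = 0}), rep z = p ↔ Ow P c p.1 z := by
    intro z p
    constructor
    · rintro rfl
      exact hr z
    · intro hz
      refine Subtype.ext ?_
      rcases hr z with h1 | h1 <;> rcases hz with h2 | h2
      · exact h1.2.trans h2.2.symm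
      · exact absurd h1.1 h2.1
      · exact absurd h2.1 h1.1
      · exact own_uniq H h1.1 h1.2.1 h1.2.2.1 h1.2.2.2 h2.2.1 h2.2.2.1 h2.2.2.2
  have h1 : Fintype.card M = ∑ x : {p : M // (c p).s = 0} × Fin 4 × Bool × Fin 3,
      Fintype.card {z : M // (rep z, (c z).s, (c z).t, (c z).k) = x} := by
    rw [← Fintype.card_sigma]
    exact Fintype.card_congr (Equiv.sigmaFiberEquiv _).symm
  rw [h1, Fintype.sum_prod_type]
  refine Finset.sum_congr rfl fun p _ => ?_
  rw [Fintype.sum_prod_type]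
  simp only [Fintype.sum_prod_type]
  have h2 : ∀ (s : Fin 4) (t : Bool) (k : Fin 3),
      Fintype.card {z : M // (rep z, (c z).s, (c z).t, (c z).k) = (p, s, t, k)} =
      val (el P c 1 p.1) (el P c 2 p.1) s t k := by
    intro s t k
    rw [← card_fib H p.2, Nat.card_eq_fintype_card]
    refine Fintype.card_congr (Equiv.subtypeEquivRight fun z => ?_)
    rw [Prod.mk.injEq, Prod.mk.injEq, Prod.mk.injEq, hrep']
  simp only [h2]
  exact sum_val _ _

theorem po_sound [Fintype M] (H : POAx W P N N' Q c) :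
    ∃ N, 1 ≤ N ∧ Fintype.card M = 3 * N ^ 3 + 2 * N ^ 2 ∧ Tiles W N := by
  classical
  have g := grd H
  obtain ⟨N, hN, hlt, hex, hfr, hfu⟩ := g.core
  refine ⟨N, hN, ?_, ?_⟩
  · rw [card_model H, finsum_eq_sum_of_fintype, ← h80_sum_grid' N hN]
    refine Fintype.sum_bijective
      (fun h : {p : M // (c p).s = 0} =>
        ((⟨el P c 1 h.1, (hlt h).1⟩, ⟨el P c 2 h.1, (hlt h).2⟩) : Fin N × Fin N)) ?_ _ _ ?_
    · constructor
      · intro h h' e
        simp only [Prod.mk.injEq, Fin.mk.injEq] at e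
        exact g.ext e.1 e.2
      · rintro ⟨⟨x, hx⟩, ⟨y, hy⟩⟩
        obtain ⟨h, h1, h2⟩ := hex x y hx hy
        refine ⟨h, ?_⟩
        simp only [Prod.mk.injEq, Fin.mk.injEq]
        exact ⟨h1, h2⟩
    · intro h
      rfl
  · obtain ⟨o, ho, -⟩ := g.o
    haveI : Nonempty {p : M // (c p).s = 0} := ⟨o⟩
    choose! f hf1 hf2 using hex
    have hone := fun x y => (H.one (f x y).1).1 (f x y).2
    refine ⟨fun x y => (c (f x y).1).tile, ?_, ?_, ?_, ?_, ?_, ?_, ?_⟩
    · intro x y hx hy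
      have a1 := hf1 x y (by omega) hy
      have a2 := hf2 x y (by omega) hy
      have b1 := hf1 (x + 1) y hx hy
      have b2 := hf2 (x + 1) y hx hy
      have hrt := g.right_of (h := f x y) (h' := f (x + 1) y) (by rw [b1, a1]) (by rw [b2, a2])
      obtain ⟨e, h1, h2, h3, h4, h5, h6, h7, h8⟩ := rt_nb H (f x y).2 (f (x + 1) y).2 hrt
      show W.R (c (f x y).1).tile (c (f (x + 1) y).1).tile
      rw [h7.1]
      exact (h8.2.2.1 h2).2.2
    · intro x y hx hy
      have a1 := hf1 x y hx (by omega)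
      have a2 := hf2 x y hx (by omega)
      have b1 := hf1 x (y + 1) hx hy
      have b2 := hf2 x (y + 1) hx hy
      have hrt := g.up_of (h := f x y) (h' := f x (y + 1)) (by rw [b1, a1]) (by rw [b2, a2])
      obtain ⟨e, h1, h2, h3, h4, h5, h6, h7, h8⟩ := rt_nb H (f x y).2 (f x (y + 1)).2 hrt
      show W.U (c (f x y).1).tile (c (f x (y + 1)).1).tile
      rw [h7.1]
      exact (h8.2.2.2 h2).2.2
    · intro y hy
      exact (hone _ _).2.2.1 (g.zero_fl (hf1 0 y (by omega) hy))
    · intro y hy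
      exact (hone _ _).2.2.2.1 (hfr _ (hf1 (N - 1) y (by omega) hy))
    · intro x hx
      exact (hone _ _).2.2.2.2.1 (g.zero_fd (hf2 x 0 hx (by omega)))
    · intro x hx
      exact (hone _ _).2.2.2.2.2.1 (hfu _ (hf2 x (N - 1) hx (by omega)))
    · exact (hone _ _).2.2.2.2.2.2 (g.zero_fl (hf1 0 0 (by omega) (by omega))) (g.zero_fd (hf2 0 0 (by omega) (by omega)))

end Pool.Agent.Helper80.PO
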